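import Pool.Agent.Helper94.Hurwitz.Lower

set_option autoImplicit false

open Equiv

namespace Pool.Agent.Helper94.Hurwitz

variable {n : ℕ}

theorem hyper_commute {g : Perm ℤ} (hg : g ∈ hyperoctahedral n) : Commute g (simple (n + 1)) := by
  apply Perm.Disjoint.commute
  intro x
  by_cases hx : (n : ℤ) < |x|
  · left; exact hg.2 x hx
  · right
    push Not at hx
    rw [abs_le] at hx
    rw [simple_succ_apply, if_neg (by omega), if_neg (by omega), if_neg (by omega),
      if_neg (by omega)]

theorem cox_mem (n : ℕ) : coxeterElement n ∈ hyperoctahedral n := by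
  rw [← st_prod]
  exact Subgroup.list_prod_mem _ (fun t ht => (st_ASL (n := n) le_rfl t ht).mem_hyper)

theorem prod_mem_hyper {B : List ℕ} (hB : ∀ i ∈ B, i < n) :
    (B.map simple).prod ∈ hyperoctahedral n := by
  apply Subgroup.list_prod_mem
  intro t ht
  obtain ⟨i, hi, rfl⟩ := List.mem_map.mp ht
  exact (simple_SL (hB i hi)).mem_hyper

/-- the centraliser of `c` acts transitively on `±1, …, ±n` -/
theorem cox_trans (hn : 1 ≤ n) : ∀ a : ℤ, a ≠ 0 → |a| ≤ n →
    ∃ h ∈ hyperoctahedral n, Commute h (coxeterElement n) ∧ h a = n := by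
  have step : ∀ a : ℤ, (∃ h ∈ hyperoctahedral n, Commute h (coxeterElement n) ∧
      h (coxeterElement n a) = n) →
      ∃ h ∈ hyperoctahedral n, Commute h (coxeterElement n) ∧ h a = n := by
    rintro a ⟨h, h1, h2, h3⟩
    exact ⟨h * coxeterElement n, mul_mem h1 (cox_mem n), h2.mul_left (Commute.refl _), h3⟩
  have h1 : ∀ j : ℕ, j < n → ∃ h ∈ hyperoctahedral n, Commute h (coxeterElement n) ∧
      h ((n : ℤ) - j) = n := by
    intro j
    induction j with
    | zero => intro _; exact ⟨1, one_mem _, Commute.one_left _, by simp⟩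
    | succ j ih =>
      intro hj
      apply step
      rw [cox_apply _ _ (by omega) (by omega), if_pos (by omega)]
      obtain ⟨h, h1, h2, h3⟩ := ih (by omega)
      refine ⟨h, h1, h2, ?_⟩
      convert h3 using 2
      push_cast
      ring
  have h2 : ∀ j : ℕ, j < n → ∃ h ∈ hyperoctahedral n, Commute h (coxeterElement n) ∧
      h (-((n : ℤ) - j)) = n := by
    intro j
    induction j with
    | zero =>
      intro _
      apply step
      have e : coxeterElement n (-((n : ℤ) - (0 : ℕ))) = 1 := by
        rw [cox_odd, cox_apply _ _ (by omega) (by omega), if_neg (by omega), if_pos (by omega)]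
        norm_num
      rw [e]
      obtain ⟨h, h1, h2, h3⟩ := h1 (n - 1) (by omega)
      refine ⟨h, h1, h2, ?_⟩
      convert h3 using 2
      omega
    | succ j ih =>
      intro hj
      apply step
      rw [cox_odd, cox_apply _ _ (by omega) (by omega), if_pos (by omega)]
      obtain ⟨h, h1, h2, h3⟩ := ih (by omega)
      refine ⟨h, h1, h2, ?_⟩
      convert h3 using 2
      push_cast
      ring
  intro a ha ha'
  rw [abs_le] at ha'
  rcases lt_or_gt_of_ne ha with h | h
  · have := h2 (n + a).toNat (by omega)
    rwa [show -((n : ℤ) - ((n + a).toNat : ℕ)) = a by omega] at this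
  · have := h1 (n - a).toNat (by omega)
    rwa [show (n : ℤ) - ((n - a).toNat : ℕ) = a by omega] at this

theorem hyper_mono {m : ℕ} (hmn : n ≤ m) {g : Perm ℤ} (hg : g ∈ hyperoctahedral n) :
    g ∈ hyperoctahedral m := ⟨hg.1, fun x hx => hg.2 x (by omega)⟩

/-- every Coxeter element is conjugate to the standard one -/
theorem cox_conj : ∀ (n : ℕ), 1 ≤ n → ∀ l : List ℕ, l.Perm (List.range n) →
    ∃ g ∈ hyperoctahedral n, (l.map simple).prod = g * coxeterElement n * g⁻¹ := by
  intro n
  induction n with
  | zero => intro h; omega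
  | succ n ih =>
    intro _ l hl
    rcases Nat.eq_zero_or_pos n with rfl | hn
    · have h1 : l = [0] := by
        have : l.Perm [0] := by simpa using hl
        exact List.perm_singleton.mp this
      refine ⟨1, one_mem _, ?_⟩
      rw [h1]
      simp [coxeterElement]
    · have hmem : n ∈ l := hl.mem_iff.mpr (by simp)
      obtain ⟨A, B, rfl⟩ := List.append_of_mem hmem
      have hAB : (A ++ B).Perm (List.range n) := by
        have h1 : (n :: (A ++ B)).Perm (n :: List.range n) := by
          refine List.perm_middle.symm.trans (hl.trans ?_)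
          rw [List.range_succ]
          exact List.perm_append_singleton n (List.range n)
        exact h1.cons_inv
      have hlt : ∀ i ∈ A ++ B, i < n := fun i hi => List.mem_range.mp (hAB.mem_iff.mp hi)
      have hnd : (A ++ B).Nodup := hAB.nodup_iff.mpr List.nodup_range
      obtain ⟨g, hg, hge⟩ := ih hn (A ++ B) hAB
      obtain ⟨m, rfl⟩ : ∃ m, n = m + 1 := ⟨n - 1, by omega⟩
      have hsS : SL (m + 1 + 1) (simple (m + 1)) := simple_SL (by omega)
      -- the element `X = (A ++ B) s_n`
      have hX : ∃ h ∈ hyperoctahedral (m + 1 + 1), ((A ++ B).map simple).prod * simple (m + 1) =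
          h * coxeterElement (m + 1 + 1) * h⁻¹ := by
        have hgi : g⁻¹ ∈ hyperoctahedral (m + 1) := inv_mem hg
        set a : ℤ := g⁻¹ ((m : ℤ) + 1) with ha
        have ha0 : a ≠ 0 := by
          intro h0
          have h1 : g a = (m : ℤ) + 1 := by rw [ha]; simp
          have h2 := hg.1 0
          rw [neg_zero] at h2
          rw [h0] at h1
          omega
        have ha1 : |a| ≤ ((m + 1 : ℕ) : ℤ) := by
          apply hyper_abs_le hgi
          rw [abs_of_nonneg (by omega)]
          push_cast
          omega
        obtain ⟨k, hk1, hk2, hk3⟩ := cox_trans (n := m + 1) (by omega) a ha0 ha1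
        have hki : k⁻¹ ∈ hyperoctahedral (m + 1) := inv_mem hk1
        have hsim : simple (m + 1) = lg ((m : ℤ) + 1) ((m : ℤ) + 2) := rfl
        have e1 : g⁻¹ * simple (m + 1) * g = lg a ((m : ℤ) + 2) := by
          have := conj_lg (g := g⁻¹) hgi.1 ((m : ℤ) + 1) ((m : ℤ) + 2)
          rw [inv_inv] at this
          rw [hsim, this, ← ha, hgi.2 ((m : ℤ) + 2) (by
            rw [abs_of_nonneg (by omega)]; push_cast; omega)]
        have e2 : k⁻¹ * simple (m + 1) * k = lg a ((m : ℤ) + 2) := by
          have := conj_lg (g := k⁻¹) hki.1 ((m : ℤ) + 1) ((m : ℤ) + 2)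
          rw [inv_inv] at this
          have h3 : k⁻¹ ((m : ℤ) + 1) = a := by
            rw [Perm.inv_eq_iff_eq, hk3]; push_cast; ring
          rw [hsim, this, h3, hki.2 ((m : ℤ) + 2) (by
            rw [abs_of_nonneg (by omega)]; push_cast; omega)]
        refine ⟨g * k⁻¹, hyper_mono (by omega) (mul_mem hg hki), ?_⟩
        rw [hge, cox_succ (m + 1)]
        have e3 : k⁻¹ * coxeterElement (m + 1) * k = coxeterElement (m + 1) := by
          rw [mul_assoc, ← hk2.eq, ← mul_assoc, inv_mul_cancel, one_mul]
        calc g * coxeterElement (m + 1) * g⁻¹ * simple (m + 1)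
            = g * coxeterElement (m + 1) * (g⁻¹ * simple (m + 1) * g) * g⁻¹ := by group
          _ = g * (k⁻¹ * coxeterElement (m + 1) * k) * (k⁻¹ * simple (m + 1) * k) * g⁻¹ := by
              rw [e1, e2, e3]
          _ = g * k⁻¹ * (coxeterElement (m + 1) * simple (m + 1)) * (g * k⁻¹)⁻¹ := by group
      obtain ⟨h, hh, hX⟩ := hX
      by_cases hB : m ∈ B
      · -- then `m ∉ A`
        have hA : m ∉ A := fun hA => (List.nodup_append.mp hnd).2.2 m hA m hB rfl
        have hA' : ∀ i ∈ A, i < m := by
          intro i hi
          have h1 := hlt i (List.mem_append_left _ hi)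
          have h2 : i ≠ m := fun h => hA (h ▸ hi)
          omega
        have hc := (hyper_commute (prod_mem_hyper hA')).eq
        refine ⟨simple (m + 1) * h, mul_mem hsS.mem_hyper hh, ?_⟩
        have e4 : ((A ++ (m + 1) :: B).map simple).prod =
            simple (m + 1) * (((A ++ B).map simple).prod * simple (m + 1)) * (simple (m + 1))⁻¹ := by
          rw [List.map_append, List.prod_append, List.map_cons, List.prod_cons, ← mul_assoc, hc,
            List.map_append, List.prod_append]
          group
        rw [e4, hX]
        group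
      · have hB' : ∀ i ∈ B, i < m := by
          intro i hi
          have h1 := hlt i (List.mem_append_right _ hi)
          have h2 : i ≠ m := fun h => hB (h ▸ hi)
          omega
        have hc := (hyper_commute (prod_mem_hyper hB')).eq
        refine ⟨h, hh, ?_⟩
        rw [← hX, List.map_append, List.prod_append, List.map_cons, List.prod_cons, ← hc,
          List.map_append, List.prod_append, mul_assoc]

end Pool.Agent.Helper94.Hurwitz
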