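import Mathlib

set_option autoImplicit false

open Equiv

namespace Pool.Agent.Helper94.Hurwitz

/-- The reflection `(a, -a)` (change of sign of `a`). -/
def sh (a : ℤ) : Perm ℤ := swap a (-a)

/-- The reflection `(a, b)(-a, -b)`. -/
def lg (a b : ℤ) : Perm ℤ := swap a b * swap (-a) (-b)

/-- The simple reflections `s₀ = (1, -1)`, `sᵢ = (i, i+1)(-i, -(i+1))` of type `B`. -/
def simple : ℕ → Perm ℤ
  | 0 => sh 1
  | (i + 1) => lg ((i : ℤ) + 1) ((i : ℤ) + 2)

/-- The hyperoctahedral group of signed permutations of `{±1, …, ±n}` (every signed permutation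
is extended by the identity to the integers outside `{±1, …, ±n}`). -/
def hyperoctahedral (n : ℕ) : Subgroup (Perm ℤ) where
  carrier := {g | (∀ x : ℤ, g (-x) = - g x) ∧ ∀ x : ℤ, (n : ℤ) < |x| → g x = x}
  mul_mem' := by
    rintro a b ⟨ha, ha'⟩ ⟨hb, hb'⟩
    refine ⟨fun x => ?_, fun x hx => ?_⟩
    · rw [Perm.mul_apply, Perm.mul_apply, hb, ha]
    · rw [Perm.mul_apply, hb' x hx, ha' x hx]
  one_mem' := ⟨fun _ => rfl, fun _ _ => rfl⟩
  inv_mem' := by
    rintro a ⟨ha, ha'⟩
    refine ⟨fun x => ?_, fun x hx => ?_⟩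
    · rw [Perm.inv_eq_iff_eq, ha]; simp
    · rw [Perm.inv_eq_iff_eq]; exact (ha' x hx).symm

/-- The set of reflections of `B_n`: all conjugates of the simple reflections. -/
def reflections (n : ℕ) : Set (Perm ℤ) :=
  {t | ∃ w ∈ hyperoctahedral n, ∃ i < n, t = w * simple i * w⁻¹}

/-- The Coxeter element `s₀ s₁ ⋯ s_{n-1}`. -/
def coxeterElement (n : ℕ) : Perm ℤ := ((List.range n).map simple).prod

/-- `c` is a Coxeter element of `B_n`: a product of the simple reflections `s₀, …, s_{n-1}`,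
each taken once, in some order. -/
def IsCoxeterElement (n : ℕ) (c : Perm ℤ) : Prop :=
  ∃ l : List ℕ, l.Perm (List.range n) ∧ c = (l.map simple).prod

/-- Reduced words for `c` over the reflections: words of reflections with product `c` and
minimal length. -/
def IsReducedWord (n : ℕ) (c : Perm ℤ) (l : List (Perm ℤ)) : Prop :=
  (∀ t ∈ l, t ∈ reflections n) ∧ l.prod = c ∧
    ∀ l' : List (Perm ℤ), (∀ t ∈ l', t ∈ reflections n) → l'.prod = c →
      l.length ≤ l'.length

/-- A Hurwitz move: two consecutive letters `(s, t)` are replaced by `(sts, s)` or `(t, tst)`. -/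
def HurwitzMove (l l' : List (Perm ℤ)) : Prop :=
  ∃ (p q : List (Perm ℤ)) (s t : Perm ℤ), l = p ++ s :: t :: q ∧
    (l' = p ++ (s * t * s) :: s :: q ∨ l' = p ++ t :: (t * s * t) :: q)

/-- The Hurwitz graph `H(B_n)` for the element `c`. -/
def hurwitzGraph (n : ℕ) (c : Perm ℤ) :
    SimpleGraph {l : List (Perm ℤ) // IsReducedWord n c l} where
  Adj u v := u ≠ v ∧ (HurwitzMove u.1 v.1 ∨ HurwitzMove v.1 u.1)
  symm := ⟨fun _ _ h => ⟨h.1.symm, h.2.symm⟩⟩
  loopless := ⟨fun _ h => h.1 rfl⟩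

end Pool.Agent.Helper94.Hurwitz
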