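import Pool.Agent.Helper94.Hurwitz.Weight

set_option autoImplicit false

open Equiv

namespace Pool.Agent.Helper94.Hurwitz

variable {n : ℕ}

/-- `F` is fixed by the first `j` letters of `w`. -/
def Fj (w : List (Perm ℤ)) (j : ℕ) (F : ℤ → ℚ) : Prop := Fx (w.take j) F

theorem Fj.mono {w : List (Perm ℤ)} {i j : ℕ} (hij : i ≤ j) {F : ℤ → ℚ} (h : Fj w j F) :
    Fj w i F := fun t ht => h t (List.take_subset_take_left w hij ht)

theorem Fj_zero (w : List (Perm ℤ)) (F : ℤ → ℚ) : Fj w 0 F := by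
  intro t ht; simp at ht

theorem Fj_succ {w : List (Perm ℤ)} {j : ℕ} {t : Perm ℤ} (h : w[j]? = some t) (F : ℤ → ℚ) :
    Fj w (j + 1) F ↔ Fj w j F ∧ ∀ x, F (t x) = F x := by
  unfold Fj
  rw [List.take_add_one, h]
  unfold Fx
  constructor
  · intro h1
    exact ⟨fun s hs => h1 s (by simp [hs]), h1 t (by simp)⟩
  · rintro ⟨h1, h2⟩ s hs
    rcases List.mem_append.mp hs with h3 | h3
    · exact h1 s h3
    · have : s = t := by simpa using h3
      rw [this]; exact h2

theorem Fj_length {w : List (Perm ℤ)} {j : ℕ} (h : w.length ≤ j) (F : ℤ → ℚ) :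
    Fj w j F ↔ Fx w F := by
  unfold Fj; rw [List.take_of_length_le h]

/-- `i ∈ Λ(w, j)` relative to the base word `v` -/
def Lam (n : ℕ) (v w : List (Perm ℤ)) (j i : ℕ) : Prop :=
  ∃ F, OF n F ∧ Fj w j F ∧ Fj v i F ∧ ¬ Fj v (i + 1) F

theorem Lam.mono {v w : List (Perm ℤ)} {j j' i : ℕ} (hj : j ≤ j') (h : Lam n v w j' i) :
    Lam n v w j i := by
  obtain ⟨F, h1, h2, h3, h4⟩ := h
  exact ⟨F, h1, h2.mono hj, h3, h4⟩

theorem Fx.smul {u : List (Perm ℤ)} {F : ℤ → ℚ} (h : Fx u F) (a : ℚ) :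
    Fx u (fun x => a * F x) := by
  intro t ht x
  simp only [h t ht x]

theorem lam_aux {v w : List (Perm ℤ)} {j x y : ℕ} {t : Perm ℤ} (hw : ASL n w)
    (hj : w[j]? = some t) (hxy : x < y) (hx : Lam n v w j x) (hy : Lam n v w j y)
    (hy' : ¬ Lam n v w (j + 1) y) : Lam n v w (j + 1) x := by
  have htS : SL n t := hw t (List.mem_of_getElem? hj)
  obtain ⟨p, hp⟩ := htS.exists_moved
  obtain ⟨F, h1, h2, h3, h4⟩ := hx
  obtain ⟨F', h1', h2', h3', h4'⟩ := hy
  have hb : F' (t p) - F' p ≠ 0 := by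
    intro h0
    apply hy'
    refine ⟨F', h1', ?_, h3', h4'⟩
    rw [Fj_succ hj]
    exact ⟨h2', (htS.fix_iff hp h1'.1).mpr (by linarith)⟩
  set a : ℚ := F' (t p) - F' p with ha
  set b : ℚ := F (t p) - F p with hbdef
  have hOF := h1.comb h1' a b
  refine ⟨_, hOF, ?_, ?_, ?_⟩
  · rw [Fj_succ hj]
    have h8 := (htS.fix_iff (F := fun x => a * F x - b * F' x) hp hOF.1).mpr (by
      rw [ha, hbdef]
      ring)
    exact ⟨Fx.comb h2 h2' a b, h8⟩
  · exact Fx.comb h3 (h3'.mono (by omega)) a b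
  · intro h5
    apply h4
    have h6 : Fj v (x + 1) F' := h3'.mono (by omega)
    have h7 := Fx.comb h5 h6 (1 / a) (-(b / a))
    have e : (fun x => 1 / a * (a * F x - b * F' x) - -(b / a) * F' x) = F := by
      funext x
      field_simp
      ring
    rw [e] at h7
    exact h7

theorem lam_unique {v w : List (Perm ℤ)} {j x y : ℕ} (hw : ASL n w)
    (hj : j < w.length) (hx : Lam n v w j x) (hx' : ¬ Lam n v w (j + 1) x)
    (hy : Lam n v w j y) (hy' : ¬ Lam n v w (j + 1) y) : x = y := by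
  have hj' : w[j]? = some (w[j]) := List.getElem?_eq_getElem hj
  rcases lt_trichotomy x y with h | h | h
  · exact absurd (lam_aux hw hj' h hx hy hy') hx'
  · exact h
  · exact absurd (lam_aux hw hj' h hy hx hx') hy'

/-- the inversion set -/
noncomputable def Inv (n : ℕ) (v w : List (Perm ℤ)) : Finset (ℕ × ℕ) := by
  classical
  exact (Finset.range n ×ˢ Finset.range n).filter
    (fun p => p.1 < p.2 ∧ ∃ j, Lam n v w j p.1 ∧ ¬ Lam n v w j p.2)

theorem mem_Inv {v w : List (Perm ℤ)} {p : ℕ × ℕ} : p ∈ Inv n v w ↔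
    p.2 < n ∧ p.1 < p.2 ∧ ∃ j, Lam n v w j p.1 ∧ ¬ Lam n v w j p.2 := by
  unfold Inv
  simp only [Finset.mem_filter, Finset.mem_product, Finset.mem_range]
  constructor
  · rintro ⟨⟨h1, h2⟩, h3, h4⟩; exact ⟨h2, h3, h4⟩
  · rintro ⟨h2, h3, h4⟩; exact ⟨⟨by omega, h2⟩, h3, h4⟩

/-- the letter at position `j` is short -/
def ShAt (w : List (Perm ℤ)) (j : ℕ) : Prop := ∃ t, w[j]? = some t ∧ Short t

/-- effect of a Hurwitz move on flags and types -/
theorem move_effect {w w' : List (Perm ℤ)} (h : HurwitzMove w w') (hw : ASL n w) :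
    ∃ r, r + 1 < w.length ∧ (∀ j, j ≠ r + 1 → ∀ F, (Fj w j F ↔ Fj w' j F)) ∧
      (∀ j, j ≠ r → j ≠ r + 1 → (ShAt w j → ShAt w' j)) ∧
      (ShAt w r → ShAt w' (r + 1)) ∧ (ShAt w (r + 1) → ShAt w' r) := by
  obtain ⟨p, q, s, t, rfl, hv⟩ := h
  have hs : SL n s := hw s (by simp)
  have ht : SL n t := hw t (by simp)
  refine ⟨p.length, by simp, ?_, ?_, ?_, ?_⟩
  · intro j hj F
    rcases lt_or_gt_of_ne hj with hlt | hgt
    · have e : ∀ l : List (Perm ℤ), (p ++ l).take j = p.take j := fun l => by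
        rw [List.take_append_of_le_length (by omega)]
      unfold Fj
      rcases hv with rfl | rfl
      · rw [e, e]
      · rw [e, e]
    · obtain ⟨k, rfl⟩ : ∃ k, j = p.length + (k + 2) := ⟨j - p.length - 2, by omega⟩
      have e : ∀ a b : Perm ℤ, (p ++ a :: b :: q).take (p.length + (k + 2)) =
          p ++ a :: b :: q.take k := by
        intro a b
        rw [List.take_length_add_append]
        rfl
      have e2 : ∀ a b : Perm ℤ, Fj (p ++ a :: b :: q) (p.length + (k + 2)) F ↔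
          (Fx p F ∧ Fx (q.take k) F ∧ (∀ x, F (a x) = F x) ∧ (∀ x, F (b x) = F x)) := by
        intro a b
        unfold Fj
        rw [e]
        unfold Fx
        constructor
        · intro h1
          exact ⟨fun y hy => h1 y (by simp [hy]), fun y hy => h1 y (by simp [hy]),
            h1 a (by simp), h1 b (by simp)⟩
        · rintro ⟨h1, h2, h3, h4⟩ y hy
          simp only [List.mem_append, List.mem_cons] at hy
          rcases hy with hy | rfl | rfl | hy
          · exact h1 y hy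
          · exact h3
          · exact h4
          · exact h2 y hy
      rcases hv with rfl | rfl
      · rw [e2, e2]
        constructor
        · rintro ⟨h1, h2, h3, h4⟩
          refine ⟨h1, h2, fun x => ?_, h3⟩
          rw [Perm.mul_apply, Perm.mul_apply, h3, h4, h3]
        · rintro ⟨h1, h2, h3, h4⟩
          refine ⟨h1, h2, h4, fun x => ?_⟩
          have h5 := h3 (s x)
          rw [Perm.mul_apply, Perm.mul_apply, hs.invol, h4, h4] at h5
          exact h5
      · rw [e2, e2]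
        constructor
        · rintro ⟨h1, h2, h3, h4⟩
          refine ⟨h1, h2, h4, fun x => ?_⟩
          rw [Perm.mul_apply, Perm.mul_apply, h4, h3, h4]
        · rintro ⟨h1, h2, h3, h4⟩
          refine ⟨h1, h2, fun x => ?_, h3⟩
          have h5 := h4 (t x)
          rw [Perm.mul_apply, Perm.mul_apply, ht.invol, h3, h3] at h5
          exact h5
  · intro j hj hj'
    have e : ∀ a b a' b' : Perm ℤ, (p ++ a :: b :: q)[j]? = (p ++ a' :: b' :: q)[j]? := by
      intro a b a' b'
      by_cases hlt : j < p.length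
      · rw [List.getElem?_append_left hlt, List.getElem?_append_left hlt]
      · rw [List.getElem?_append_right (by omega), List.getElem?_append_right (by omega)]
        obtain ⟨k, hk⟩ : ∃ k, j - p.length = k + 2 := ⟨j - p.length - 2, by omega⟩
        rw [hk]
        rfl
    rintro ⟨x, hx, hx'⟩
    refine ⟨x, ?_, hx'⟩
    rcases hv with rfl | rfl
    · rw [← hx]; exact e _ _ _ _
    · rw [← hx]; exact e _ _ _ _
  · rintro ⟨x, hx, hx'⟩
    rw [List.getElem?_append_right (by omega)] at hx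
    have hxs : s = x := by simpa using hx
    rw [← hxs] at hx'
    unfold ShAt
    rcases hv with rfl | rfl
    · refine ⟨s, ?_, hx'⟩
      rw [List.getElem?_append_right (by omega)]
      simp
    · refine ⟨t * s * t, ?_, (short_conj_iff ht).mpr hx'⟩
      rw [List.getElem?_append_right (by omega)]
      simp
  · rintro ⟨x, hx, hx'⟩
    rw [List.getElem?_append_right (by omega)] at hx
    have hxs : t = x := by simpa using hx
    rw [← hxs] at hx'
    unfold ShAt
    rcases hv with rfl | rfl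
    · refine ⟨s * t * s, ?_, (short_conj_iff hs).mpr hx'⟩
      rw [List.getElem?_append_right (by omega)]
      simp
    · refine ⟨t, ?_, hx'⟩
      rw [List.getElem?_append_right (by omega)]
      simp

/-- the invariant: inversion number and position of the short letter -/
def QQ (n : ℕ) (v : List (Perm ℤ)) (z : ℕ) (w : List (Perm ℤ)) (N : ℕ) : Prop :=
  (Inv n v w).card ≤ N ∧ ((Inv n v w).card = N →
    ∃ j, Lam n v w j z ∧ ¬ Lam n v w (j + 1) z ∧ ShAt w j)

theorem QQ_step {v w w' : List (Perm ℤ)} {z N : ℕ} (h : HurwitzMove w w') (hw : ASL n w)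
    (hQ : QQ n v z w N) : QQ n v z w' (N + 1) := by
  have hw' : ASL n w' := move_ASL h hw
  have hlen : w'.length = w.length := move_length h
  obtain ⟨r, hr, hF, hs1, hs2, hs3⟩ := move_effect h hw
  have hL : ∀ j, j ≠ r + 1 → ∀ i, (Lam n v w j i ↔ Lam n v w' j i) := by
    intro j hj i
    unfold Lam
    constructor
    · rintro ⟨F, h1, h2, h3, h4⟩; exact ⟨F, h1, (hF j hj F).mp h2, h3, h4⟩
    · rintro ⟨F, h1, h2, h3, h4⟩; exact ⟨F, h1, (hF j hj F).mpr h2, h3, h4⟩
  -- new inversions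
  have hnew : ∀ p ∈ Inv n v w' \ Inv n v w, Lam n v w' (r + 1) p.1 ∧ ¬ Lam n v w' (r + 1) p.2 ∧
      ¬ (Lam n v w (r + 1) p.1 ∧ ¬ Lam n v w (r + 1) p.2) ∧
      ¬ Lam n v w' (r + 2) p.1 ∧ Lam n v w' r p.2 := by
    intro p hp
    rw [Finset.mem_sdiff, mem_Inv, mem_Inv] at hp
    obtain ⟨⟨h1, h2, j, h3, h4⟩, h5⟩ := hp
    have h6 : ∀ j, ¬ (Lam n v w j p.1 ∧ ¬ Lam n v w j p.2) := fun j hj => h5 ⟨h1, h2, j, hj⟩
    have hj : j = r + 1 := by
      by_contra hne
      exact h6 j ⟨(hL j hne _).mpr h3, fun h7 => h4 ((hL j hne _).mp h7)⟩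
    rw [hj] at h3 h4
    refine ⟨h3, h4, h6 (r + 1), ?_, ?_⟩
    · intro h7
      apply h6 (r + 2)
      refine ⟨(hL (r + 2) (by omega) _).mpr h7, fun h8 => h4 ?_⟩
      exact ((hL (r + 2) (by omega) _).mp h8).mono (by omega)
    · by_contra h7
      apply h6 r
      exact ⟨(hL r (by omega) _).mpr (h3.mono (by omega)), fun h8 => h7 ((hL r (by omega) _).mp h8)⟩
  have hcard1 : (Inv n v w' \ Inv n v w).card ≤ 1 := by
    rw [Finset.card_le_one]
    intro a ha b hb
    obtain ⟨a1, a2, -, a4, a5⟩ := hnew a ha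
    obtain ⟨b1, b2, -, b4, b5⟩ := hnew b hb
    have e1 : a.1 = b.1 := lam_unique hw' (by omega) a1 a4 b1 b4
    have e2 : a.2 = b.2 := lam_unique hw' (by omega) a5 a2 b5 b2
    exact Prod.ext e1 e2
  have hcard2 : (Inv n v w').card ≤ (Inv n v w' \ Inv n v w).card + (Inv n v w).card :=
    Finset.card_le_card_sdiff_add_card
  refine ⟨by have := hQ.1; omega, ?_⟩
  intro heq
  have h1 := hQ.1
  have hcard : (Inv n v w).card = N := by omega
  have hpos : 0 < (Inv n v w' \ Inv n v w).card := by omega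
  obtain ⟨p, hp⟩ := Finset.card_pos.mp hpos
  obtain ⟨p1, p2, p3, p4, p5⟩ := hnew p hp
  obtain ⟨j, hj1, hj2, hj3⟩ := hQ.2 hcard
  have hLr : ∀ i, Lam n v w r i ↔ Lam n v w' r i := hL r (by omega)
  have hLr2 : ∀ i, Lam n v w (r + 2) i ↔ Lam n v w' (r + 2) i := hL (r + 2) (by omega)
  by_cases e1 : j = r
  · subst e1
    refine ⟨j + 1, ?_, ?_, hs2 hj3⟩
    · by_contra hz
      -- then the flags agree
      apply p3
      have hz1 : Lam n v w' j z := (hLr z).mp hj1
      constructor
      · by_contra h5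
        have h6 : Lam n v w j p.1 := (hLr _).mpr (p1.mono (by omega))
        have h7 : p.1 = z := lam_unique hw (by omega) h6 h5 hj1 hj2
        rw [h7] at p1
        exact hz p1
      · intro h5
        have h7 : p.2 = z := lam_unique hw' (by omega) p5 p2 hz1 hz
        rw [h7] at h5
        exact hj2 h5
    · intro h5
      exact hj2 (((hLr2 z).mpr h5).mono (by omega))
  by_cases e2 : j = r + 1
  · subst e2
    refine ⟨r, (hLr z).mp (hj1.mono (by omega)), ?_, hs3 hj3⟩
    intro hz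
    apply p3
    have hj2' : ¬ Lam n v w' (r + 2) z := fun h5 => hj2 ((hLr2 z).mpr h5)
    constructor
    · have h7 : p.1 = z := lam_unique hw' (by omega) p1 p4 hz hj2'
      rw [h7]; exact hj1
    · intro h5
      have h6 : ¬ Lam n v w (r + 2) p.2 := by
        intro h6
        exact p2 (((hLr2 _).mp h6).mono (by omega))
      have h7 : p.2 = z := lam_unique hw (by omega) h5 h6 hj1 hj2
      rw [h7] at p2
      exact p2 hz
  · refine ⟨j, (hL j e2 z).mp hj1, fun h5 => hj2 ((hL (j + 1) (by omega) z).mpr h5),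
      hs1 j e1 e2 hj3⟩

theorem QQ_rch {v w w' : List (Perm ℤ)} {z k : ℕ} (h : Rch k w w') : ∀ {N : ℕ}, ASL n w →
    QQ n v z w N → QQ n v z w' (N + k) := by
  induction h with
  | refl k u =>
    intro N _ hQ
    refine ⟨by have := hQ.1; omega, fun h1 => hQ.2 ?_⟩
    have := hQ.1
    omega
  | step h1 h2 ih =>
    intro N hu hQ
    have := ih (move_ASL h1 hu) (QQ_step h1 hu hQ)
    rwa [add_assoc, add_comm 1] at this

end Pool.Agent.Helper94.Hurwitz
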