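import Pool.Agent.Helper94.Hurwitz.Defs

set_option autoImplicit false

open Equiv

namespace Pool.Agent.Helper94.Hurwitz

/-- concrete reflections with entries in `[-n, n]`. -/
def SL (n : ℕ) (t : Perm ℤ) : Prop :=
  (∃ a : ℤ, a ≠ 0 ∧ |a| ≤ n ∧ t = sh a) ∨
  (∃ a b : ℤ, a ≠ 0 ∧ b ≠ 0 ∧ a ≠ b ∧ a ≠ -b ∧ |a| ≤ n ∧ |b| ≤ n ∧ t = lg a b)

/-- short letters -/
def Short (t : Perm ℤ) : Prop := ∃ p : ℤ, p ≠ 0 ∧ t p = -p

theorem sh_apply (a x : ℤ) : sh a x = if x = a then -a else if x = -a then a else x := by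
  unfold sh
  rw [swap_apply_def]

theorem lg_apply {a b : ℤ} (ha : a ≠ 0) (hb : b ≠ 0) (hab : a ≠ b) (hab' : a ≠ -b) (x : ℤ) :
    lg a b x = if x = a then b else if x = b then a else if x = -a then -b
      else if x = -b then -a else x := by
  unfold lg
  rw [Perm.mul_apply, swap_apply_def, swap_apply_def]
  split_ifs <;> omega

variable {n : ℕ} {t t' g : Perm ℤ}

theorem SL.odd (h : SL n t) (x : ℤ) : t (-x) = - t x := by
  rcases h with ⟨a, ha, -, rfl⟩ | ⟨a, b, ha, hb, hab, hab', -, -, rfl⟩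
  · rw [sh_apply, sh_apply]; split_ifs <;> omega
  · rw [lg_apply ha hb hab hab', lg_apply ha hb hab hab']; split_ifs <;> omega

theorem SL.invol (h : SL n t) (x : ℤ) : t (t x) = x := by
  rcases h with ⟨a, ha, -, rfl⟩ | ⟨a, b, ha, hb, hab, hab', -, -, rfl⟩
  · rw [sh_apply, sh_apply]; split_ifs <;> omega
  · rw [lg_apply ha hb hab hab', lg_apply ha hb hab hab']; split_ifs <;> omega

theorem SL.mul_self (h : SL n t) : t * t = 1 := by
  ext x; rw [Perm.mul_apply, h.invol]; rfl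

theorem SL.inv_eq (h : SL n t) : t⁻¹ = t := by
  rw [inv_eq_iff_mul_eq_one]; exact h.mul_self

theorem SL.fix_of (h : SL n t) {p x : ℤ} (hp : t p ≠ p) (h1 : x ≠ p) (h2 : x ≠ -p)
    (h3 : x ≠ t p) (h4 : x ≠ - t p) : t x = x := by
  rcases h with ⟨a, ha, -, rfl⟩ | ⟨a, b, ha, hb, hab, hab', -, -, rfl⟩
  · rw [sh_apply] at *
    split_ifs at * <;> omega
  · rw [lg_apply ha hb hab hab'] at *
    split_ifs at * <;> omega

theorem SL.bound (h : SL n t) {p : ℤ} (hp : t p ≠ p) : p ≠ 0 ∧ |p| ≤ n ∧ |t p| ≤ n := by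
  rcases h with ⟨a, ha, ha', rfl⟩ | ⟨a, b, ha, hb, hab, hab', ha', hb', rfl⟩
  · rw [sh_apply] at *
    rw [abs_le] at *
    rw [abs_le]
    split_ifs at * <;> omega
  · rw [lg_apply ha hb hab hab'] at *
    rw [abs_le] at *
    rw [abs_le]
    split_ifs at * <;> omega

theorem SL.exists_moved (h : SL n t) : ∃ p : ℤ, t p ≠ p := by
  rcases h with ⟨a, ha, -, rfl⟩ | ⟨a, b, ha, hb, hab, hab', -, -, rfl⟩
  · exact ⟨a, by rw [sh_apply, if_pos rfl]; omega⟩
  · exact ⟨a, by rw [lg_apply ha hb hab hab', if_pos rfl]; omega⟩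

theorem SL.apply_ne_zero (h : SL n t) {x : ℤ} (hx : x ≠ 0) : t x ≠ 0 := by
  intro h0
  have h1 := h.invol x
  rw [h0] at h1
  have h2 := h.odd 0
  rw [neg_zero] at h2
  omega

theorem SL.abs_le (h : SL n t) {x : ℤ} (hx : |x| ≤ n) : |t x| ≤ n := by
  by_cases h1 : t x = x
  · rw [h1]; exact hx
  · exact (h.bound h1).2.2

theorem SL.fix_big (h : SL n t) {x : ℤ} (hx : (n : ℤ) < |x|) : t x = x := by
  by_contra h1
  exact absurd (h.bound h1).2.1 (not_le.mpr hx)

/-- a reflection is determined by its action on a moved point -/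
theorem SL.ext_moved (h : SL n t) (h' : SL n t') {p : ℤ} (hp : t p ≠ p) (he : t' p = t p) :
    t = t' := by
  have hp' : t' p ≠ p := by rw [he]; exact hp
  ext x
  by_cases h1 : x = p
  · rw [h1, he]
  by_cases h2 : x = -p
  · rw [h2, h.odd, h'.odd, he]
  by_cases h3 : x = t p
  · rw [h3, h.invol, ← he, h'.invol]
  by_cases h4 : x = - t p
  · rw [h4, h.odd, h'.odd, h.invol, ← he, h'.invol]
  rw [h.fix_of hp h1 h2 h3 h4, h'.fix_of hp' h1 h2 (by rw [he]; exact h3) (by rw [he]; exact h4)]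

theorem SL.short_iff (h : SL n t) {p : ℤ} (hp : t p ≠ p) : Short t ↔ t p = -p := by
  constructor
  · rintro ⟨q, hq0, hq⟩
    rcases h with ⟨a, ha, ha', rfl⟩ | ⟨a, b, ha, hb, hab, hab', ha', hb', rfl⟩
    · rw [sh_apply] at *
      split_ifs at * <;> omega
    · rw [lg_apply ha hb hab hab'] at *
      split_ifs at * <;> omega
  · intro h1
    exact ⟨p, (h.bound hp).1, h1⟩

theorem conj_swap (g : Perm ℤ) (a b : ℤ) : g * swap a b * g⁻¹ = swap (g a) (g b) := by
  rw [mul_swap_eq_swap_mul, mul_assoc, mul_inv_cancel, mul_one]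

theorem conj_sh (hg : ∀ x, g (-x) = - g x) (a : ℤ) : g * sh a * g⁻¹ = sh (g a) := by
  unfold sh
  rw [← hg, conj_swap]

theorem conj_lg (hg : ∀ x, g (-x) = - g x) (a b : ℤ) : g * lg a b * g⁻¹ = lg (g a) (g b) := by
  unfold lg
  rw [← hg, ← hg, ← conj_swap g a b, ← conj_swap g (-a) (-b)]
  group

theorem SL.conj_of (h : SL n t) (hg : ∀ x, g (-x) = - g x)
    (hg' : ∀ x : ℤ, |x| ≤ n → |g x| ≤ n) : SL n (g * t * g⁻¹) := by
  have hg0 : g 0 = 0 := by have := hg 0; rw [neg_zero] at this; omega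
  have hgn : ∀ x : ℤ, x ≠ 0 → g x ≠ 0 := fun x hx h0 => hx (g.injective (by rw [h0, hg0]))
  rcases h with ⟨a, ha, ha', rfl⟩ | ⟨a, b, ha, hb, hab, hab', ha', hb', rfl⟩
  · left
    exact ⟨g a, hgn a ha, hg' a ha', conj_sh hg a⟩
  · right
    refine ⟨g a, g b, hgn a ha, hgn b hb, fun he => hab (g.injective he), fun he => hab' ?_,
      hg' a ha', hg' b hb', conj_lg hg a b⟩
    apply g.injective
    rw [he, hg]

theorem SL.conj (h : SL n t) (hg : SL n g) : SL n (g * t * g) := by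
  have := h.conj_of hg.odd (fun x hx => hg.abs_le hx)
  rwa [hg.inv_eq] at this

theorem Short.conj_of (h : Short t) (hg : ∀ x, g (-x) = - g x) : Short (g * t * g⁻¹) := by
  obtain ⟨p, hp0, hp⟩ := h
  have hg0 : g 0 = 0 := by have := hg 0; rw [neg_zero] at this; omega
  refine ⟨g p, fun h0 => hp0 (g.injective (by rw [h0, hg0])), ?_⟩
  rw [Perm.mul_apply, Perm.mul_apply, ← Perm.mul_apply g⁻¹ g, inv_mul_cancel, Perm.one_apply, hp, hg]

theorem short_conj_iff (hg : SL n g) : Short (g * t * g) ↔ Short t := by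
  have h1 : ∀ s : Perm ℤ, Short s → Short (g * s * g) := by
    intro s hs
    have := hs.conj_of hg.odd
    rwa [hg.inv_eq] at this
  constructor
  · intro h
    have := h1 _ h
    have e : g * (g * t * g) * g = t := by
      calc g * (g * t * g) * g = (g * g) * t * (g * g) := by group
        _ = t := by rw [hg.mul_self, one_mul, mul_one]
    rwa [e] at this
  · exact h1 t

/-! ### relation to the reflections of `B_n` -/

theorem hyper_abs_le (hg : g ∈ hyperoctahedral n) {x : ℤ} (hx : |x| ≤ n) : |g x| ≤ n := by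
  by_contra h
  push Not at h
  have h1 := hg.2 (g x) h
  have h2 := g.injective h1
  rw [h2] at h
  omega

theorem simple_SL {i : ℕ} (hi : i < n) : SL n (simple i) := by
  rcases i with _ | i
  · left
    refine ⟨1, one_ne_zero, ?_, rfl⟩
    rw [abs_one]; exact_mod_cast hi
  · right
    refine ⟨(i : ℤ) + 1, (i : ℤ) + 2, by omega, by omega, by omega, by omega, ?_, ?_, rfl⟩
    · rw [abs_of_nonneg (by omega)]; omega
    · rw [abs_of_nonneg (by omega)]; omega

theorem SL.mem_hyper (h : SL n t) : t ∈ hyperoctahedral n :=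
  ⟨h.odd, fun _ hx => h.fix_big hx⟩

theorem reflections_SL (h : t ∈ reflections n) : SL n t := by
  obtain ⟨w, hw, i, hi, rfl⟩ := h
  exact (simple_SL hi).conj_of hw.1 (fun x hx => hyper_abs_le hw hx)

theorem simple_mem {i : ℕ} (hi : i < n) : simple i ∈ reflections n :=
  ⟨1, one_mem _, i, hi, by simp⟩

theorem reflections_conj (h : t ∈ reflections n) (hg : g ∈ hyperoctahedral n) :
    g * t * g⁻¹ ∈ reflections n := by
  obtain ⟨w, hw, i, hi, rfl⟩ := h
  exact ⟨g * w, mul_mem hg hw, i, hi, by group⟩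

theorem reflections_conj' (h : t ∈ reflections n) (hg : g ∈ reflections n) :
    g * t * g ∈ reflections n := by
  have := reflections_conj h (reflections_SL hg).mem_hyper
  rwa [(reflections_SL hg).inv_eq] at this

end Pool.Agent.Helper94.Hurwitz
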