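import Pool.Agent.Helper94.Hurwitz.Flags

set_option autoImplicit false

open Equiv

namespace Pool.Agent.Helper94.Hurwitz

variable {n : ℕ}

/-- concrete description of the vertices -/
def Vx (n : ℕ) (v : List (Perm ℤ)) : Prop :=
  ASL n v ∧ v.prod = coxeterElement n ∧ v.length = n

theorem Vx.rch {v w : List (Perm ℤ)} {k : ℕ} (h : Vx n v) (hr : Rch k v w) : Vx n w :=
  ⟨hr.asl h.1, by rw [hr.prod h.1, h.2.1], by rw [hr.length, h.2.2]⟩

theorem Vx.eq_zero {v : List (Perm ℤ)} (hn : 1 ≤ n) (h : Vx n v) {F : ℤ → ℚ} (hF : OF n F)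
    (hv : Fx v F) : F = 0 := by
  apply eq_zero_of_inv hn hF
  intro x
  rw [← h.2.1]
  exact hv.prod x

theorem not_Fj_zero_fun {v : List (Perm ℤ)} {i : ℕ} : Fj v i 0 := fun _ _ _ => rfl

/-- the flag of `v` is strictly decreasing -/
theorem exists_gen {v : List (Perm ℤ)} (hn : 1 ≤ n) (h : Vx n v) {i : ℕ} (hi : i < n) :
    ∃ F, OF n F ∧ Fj v i F ∧ ¬ Fj v (i + 1) F := by
  by_contra hcon
  push Not at hcon
  -- drop the letter `i`
  have hA : ASL n (v.take i ++ v.drop (i + 1)) := by
    intro t ht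
    rcases List.mem_append.mp ht with h1 | h1
    · exact h.1 t (List.mem_of_mem_take h1)
    · exact h.1 t (List.mem_of_mem_drop h1)
  obtain ⟨F, hF, hF0, hFx⟩ := exists_fixed (n := n) hA (by
    rw [List.length_append, List.length_take, List.length_drop, h.2.2]
    omega)
  apply hF0
  apply h.eq_zero hn hF
  have h1 : Fj v i F := fun t ht => hFx t (List.mem_append_left _ ht)
  have h2 := hcon F hF h1
  intro t ht
  rw [← List.take_append_drop (i + 1) v] at ht
  rcases List.mem_append.mp ht with h3 | h3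
  · exact h2 t h3
  · exact hFx t (List.mem_append_right _ h3)

theorem Inv_self {v : List (Perm ℤ)} (hn : 1 ≤ n) (h : Vx n v) : Inv n v v = ∅ := by
  rw [Finset.eq_empty_iff_forall_notMem]
  intro p hp
  rw [mem_Inv] at hp
  obtain ⟨h1, h2, j, ⟨F, hF1, hF2, hF3, hF4⟩, h4⟩ := hp
  apply h4
  have hj : j ≤ p.1 := by
    by_contra hlt
    exact hF4 (hF2.mono (by omega))
  obtain ⟨F', h1', h2', h3'⟩ := exists_gen hn h h1
  exact ⟨F', h1', h2'.mono (by omega), h2', h3'⟩

theorem QQ_self {v : List (Perm ℤ)} (hn : 1 ≤ n) (h : Vx n v) {z : ℕ} (hz : z < n)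
    (hs : ShAt v z) : QQ n v z v 0 := by
  refine ⟨by rw [Inv_self hn h]; simp, fun _ => ⟨z, ?_, ?_, hs⟩⟩
  · obtain ⟨F', h1', h2', h3'⟩ := exists_gen hn h hz
    exact ⟨F', h1', h2', h2', h3'⟩
  · rintro ⟨F, hF1, hF2, hF3, hF4⟩
    exact hF4 hF2

/-- opposite flags up to level `m` -/
def Opp (n : ℕ) (v w : List (Perm ℤ)) (m : ℕ) : Prop :=
  ∀ j, j ≤ m → ∀ F, OF n F → Fj w j F → Fj v (n - j) F → F = 0

theorem opp_lam {v w : List (Perm ℤ)} (hn : 1 ≤ n) (hv : Vx n v) (hw : Vx n w)
    (ho : Opp n v w n) : ∀ j, j ≤ n → ∀ i, (Lam n v w j i ↔ i < n - j) := by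
  have h1 : ∀ j, j ≤ n → ∀ i, Lam n v w j i → i < n - j := by
    intro j hj i hL
    obtain ⟨F, hF1, hF2, hF3, hF4⟩ := hL
    by_contra hlt
    have h0 := ho j hj F hF1 hF2 (hF3.mono (by omega))
    apply hF4
    rw [h0]
    exact not_Fj_zero_fun
  have h2 : ∀ j, j ≤ n → ∀ i, i < n - j → Lam n v w j i := by
    intro j
    induction j with
    | zero =>
      intro _ i hi
      obtain ⟨F', h1', h2', h3'⟩ := exists_gen hn hv (i := i) (by omega)
      exact ⟨F', h1', Fj_zero _ _, h2', h3'⟩
    | succ j ih =>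
      intro hj i hi
      by_contra hcon
      have h3 := ih (by omega) i (by omega)
      have h4 := ih (by omega) (n - j - 1) (by omega)
      have h5 : ¬ Lam n v w (j + 1) (n - j - 1) := by
        intro h6
        have := h1 (j + 1) hj _ h6
        omega
      have := lam_unique hw.1 (by rw [hw.2.2]; omega) h3 hcon h4 h5
      omega
  exact fun j hj i => ⟨h1 j hj i, h2 j hj i⟩

theorem card_pairs (n : ℕ) :
    (((Finset.range n ×ˢ Finset.range n).filter (fun p => p.1 < p.2)).card) = n.choose 2 := by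
  induction n with
  | zero => rfl
  | succ n ih =>
    have e : ((Finset.range (n + 1) ×ˢ Finset.range (n + 1)).filter (fun p => p.1 < p.2)) =
        ((Finset.range n ×ˢ Finset.range n).filter (fun p => p.1 < p.2)) ∪
          (Finset.range n).map ⟨fun i => (i, n), fun a b h => (Prod.ext_iff.mp h).1⟩ := by
      ext ⟨a, b⟩
      simp only [Finset.mem_filter, Finset.mem_product, Finset.mem_range, Finset.mem_union,
        Finset.mem_map, Function.Embedding.coeFn_mk, Prod.mk.injEq]
      constructor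
      · rintro ⟨⟨h1, h2⟩, h3⟩
        by_cases h4 : b = n
        · right; exact ⟨a, by omega, rfl, h4.symm⟩
        · left; exact ⟨⟨by omega, by omega⟩, h3⟩
      · rintro (⟨⟨h1, h2⟩, h3⟩ | ⟨i, hi, rfl, rfl⟩)
        · exact ⟨⟨by omega, by omega⟩, h3⟩
        · exact ⟨⟨by omega, by omega⟩, by omega⟩
    rw [e, Finset.card_union_of_disjoint, ih, Finset.card_map, Finset.card_range,
      Nat.choose_succ_succ' n 1, Nat.choose_one_right, one_add_one_eq_two]
    · omega
    · rw [Finset.disjoint_left]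
      rintro ⟨a, b⟩ h1 h2
      simp only [Finset.mem_filter, Finset.mem_product, Finset.mem_range,
        Finset.mem_map, Function.Embedding.coeFn_mk, Prod.mk.injEq] at h1 h2
      obtain ⟨i, hi, rfl, rfl⟩ := h2
      omega

theorem opp_Inv {v w : List (Perm ℤ)} (hn : 1 ≤ n) (hv : Vx n v) (hw : Vx n w)
    (ho : Opp n v w n) : (Inv n v w).card = n.choose 2 := by
  rw [← card_pairs n]
  congr 1
  ext p
  rw [mem_Inv]
  simp only [Finset.mem_filter, Finset.mem_product, Finset.mem_range]
  constructor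
  · rintro ⟨h1, h2, -⟩
    exact ⟨⟨by omega, h1⟩, h2⟩
  · rintro ⟨⟨h1, h2⟩, h3⟩
    refine ⟨h2, h3, n - p.2, ?_, ?_⟩
    · rw [opp_lam hn hv hw ho _ (by omega)]; omega
    · rw [opp_lam hn hv hw ho _ (by omega)]; omega

theorem shAt_tw {l : List (Perm ℤ)} : ∀ {j : ℕ}, ShAt l j → tw l + 1 ≤ 2 * l.length := by
  induction l with
  | nil => rintro j ⟨t, ht, -⟩; simp at ht
  | cons s l ih =>
    rintro j ⟨t, ht, hsh⟩
    rw [tw_cons, List.length_cons]
    cases j with
    | zero =>
      have : s = t := by simpa using ht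
      rw [this, wt_short hsh]
      have := tw_le l
      omega
    | succ j =>
      have h1 := ih (j := j) ⟨t, by simpa using ht, hsh⟩
      have h2 := wt_le s
      omega

theorem exists_shAt {l : List (Perm ℤ)} (h : tw l < 2 * l.length) : ∃ j < l.length, ShAt l j := by
  by_contra hcon
  push Not at hcon
  have h1 : ∀ l : List (Perm ℤ), (∀ j < l.length, ¬ ShAt l j) → tw l = 2 * l.length := by
    intro l
    induction l with
    | nil => intro _; rfl
    | cons s l ih =>
      intro h
      have h2 : ¬ Short s := fun h3 => h 0 (by simp) ⟨s, by simp, h3⟩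
      rw [tw_cons, wt_long h2, ih, List.length_cons]
      · ring
      · rintro j hj ⟨t, ht, hsh⟩
        exact h (j + 1) (by simpa using hj) ⟨t, by simpa using ht, hsh⟩
  rw [h1 l hcon] at h
  omega

/-- bring a letter to the front -/
theorem bring {t : Perm ℤ} : ∀ {l : List (Perm ℤ)}, t ∈ l → ∃ k l', Rch k l (t :: l') := by
  intro l
  induction l with
  | nil => intro h; simp at h
  | cons s l ih =>
    intro h
    rcases List.mem_cons.mp h with rfl | h
    · exact ⟨0, l, Rch.refl _ _⟩
    · obtain ⟨k, l', hk⟩ := ih h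
      exact ⟨k + 1, (t * s * t) :: l', (hk.cons s).trans
        (Rch.single ⟨[], l', s, t, rfl, Or.inr rfl⟩)⟩

/-- the key step in the construction of opposite flags -/
theorem opp_aux {v w : List (Perm ℤ)} {j : ℕ} (hv : Vx n v) (hj : j < n)
    (ho : ∀ F, OF n F → Fj w j F → Fj v (n - j) F → F = 0)
    {g : ℤ → ℚ} (hg : OF n g) (hg1 : Fj w j g) (hg2 : Fj v (n - j - 1) g)
    {t : Perm ℤ} (htg : ¬ ∀ x, g (t x) = g x) {F : ℤ → ℚ} (hF : OF n F) (hF1 : Fj w j F)
    (hFt : ∀ x, F (t x) = F x) (hF2 : Fj v (n - j - 1) F) : F = 0 := by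
  have hlt : n - j - 1 < v.length := by rw [hv.2.2]; omega
  have hget : v[n - j - 1]? = some (v[n - j - 1]) := List.getElem?_eq_getElem hlt
  set s : Perm ℤ := v[n - j - 1] with hs
  have hsS : SL n s := hv.1 s (List.mem_of_getElem? hget)
  obtain ⟨p, hp⟩ := hsS.exists_moved
  have e0 : n - j - 1 + 1 = n - j := by omega
  have hiff : ∀ G : ℤ → ℚ, OF n G → Fj v (n - j - 1) G → G (s p) - G p = 0 → Fj v (n - j) G := by
    intro G hG h1 h2
    rw [← e0, Fj_succ hget]
    exact ⟨h1, (hsS.fix_iff hp hG.1).mpr (by linarith)⟩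
  have hg0 : g ≠ 0 := by
    rintro rfl
    exact htg (fun _ => rfl)
  set a : ℚ := g (s p) - g p with ha
  set b : ℚ := F (s p) - F p with hb
  have ha0 : a ≠ 0 := fun h0 => hg0 (ho g hg hg1 (hiff g hg hg2 h0))
  have hOF := hF.comb hg a b
  have h1 := ho _ hOF (Fx.comb hF1 hg1 a b) (hiff _ hOF (Fx.comb hF2 hg2 a b) (by
    rw [ha, hb]; ring))
  have h2 : ∀ x, a * F x = b * g x := by
    intro x
    have := congrFun h1 x
    simp only [Pi.zero_apply] at this
    linarith
  have hb0 : b = 0 := by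
    by_contra hb0
    apply htg
    intro x
    have h3 := h2 (t x)
    rw [hFt, h2 x] at h3
    exact (mul_left_cancel₀ hb0 h3).symm
  funext x
  have h3 := h2 x
  rw [hb0, zero_mul] at h3
  rcases mul_eq_zero.mp h3 with h4 | h4
  · exact absurd h4 ha0
  · exact h4

theorem opp_step {v w : List (Perm ℤ)} {j : ℕ} (hn : 1 ≤ n) (hv : Vx n v) (hw : Vx n w)
    (hj : j < n) (ho : Opp n v w j) :
    ∃ k w', Rch k w w' ∧ w'.take j = w.take j ∧ Opp n v w' (j + 1) := by
  by_cases hcase : ∀ F, OF n F → Fj w j F → Fj v (n - j - 1) F → F = 0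
  · refine ⟨0, w, Rch.refl _ _, rfl, ?_⟩
    intro i hi F hF h1 h2
    rcases Nat.lt_or_ge j i with h3 | h3
    · have : i = j + 1 := by omega
      subst this
      exact hcase F hF (h1.mono (by omega)) h2
    · exact ho i h3 F hF h1 h2
  · push Not at hcase
    obtain ⟨g, hg, hg1, hg2, hg0⟩ := hcase
    have h1 : ¬ Fx w g := fun h => hg0 (hw.eq_zero hn hg h)
    have h2 : ∃ t ∈ w.drop j, ¬ ∀ x, g (t x) = g x := by
      by_contra hcon
      push Not at hcon
      apply h1
      intro t ht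
      rw [← List.take_append_drop j w] at ht
      rcases List.mem_append.mp ht with h3 | h3
      · exact hg1 t h3
      · exact hcon t h3
    obtain ⟨t, ht, htg⟩ := h2
    obtain ⟨k, l', hk⟩ := bring ht
    have hk' : Rch k w (w.take j ++ t :: l') := by
      have := hk.appendL (w.take j)
      rwa [List.take_append_drop] at this
    have hlenj : (w.take j).length = j := by
      rw [List.length_take, hw.2.2]; omega
    have htk : ∀ i, i ≤ j → (w.take j ++ t :: l').take i = w.take i := by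
      intro i hi
      rw [List.take_append_of_le_length (by omega), List.take_take, min_eq_left hi]
    refine ⟨k, w.take j ++ t :: l', hk', htk j le_rfl, ?_⟩
    intro i hi F hF h3 h4
    rcases Nat.lt_or_ge j i with h5 | h5
    · have : i = j + 1 := by omega
      subst this
      have hget : (w.take j ++ t :: l')[j]? = some t := by
        rw [List.getElem?_append_right (by omega)]
        simp [hlenj]
      rw [Fj_succ hget] at h3
      have h6 : Fj w j F := by
        have := h3.1
        unfold Fj at this ⊢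
        rwa [htk j le_rfl] at this
      exact opp_aux hv hj (ho j le_rfl) hg hg1 hg2 htg hF h6 h3.2 h4
    · apply ho i h5 F hF _ h4
      unfold Fj at h3 ⊢
      rwa [htk i h5] at h3

theorem opp_exists {v : List (Perm ℤ)} (hn : 1 ≤ n) (hv : Vx n v) :
    ∀ (d j : ℕ), j + d = n → ∀ w, Vx n w → 1 ≤ j → Opp n v w j →
    ∃ k w', Rch k w w' ∧ w'.take 1 = w.take 1 ∧ Opp n v w' n := by
  intro d
  induction d with
  | zero =>
    intro j hj w hw _ ho
    have : j = n := by omega
    subst this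
    exact ⟨0, w, Rch.refl _ _, rfl, ho⟩
  | succ d ih =>
    intro j hj w hw hj1 ho
    obtain ⟨k, w', hk, ht, ho'⟩ := opp_step hn hv hw (by omega) ho
    obtain ⟨k2, w2, hk2, ht2, ho2⟩ := ih (j + 1) (by omega) w' (hw.rch hk) (by omega) ho'
    refine ⟨k + k2, w2, hk.trans hk2, ?_, ho2⟩
    rw [ht2]
    have := congrArg (List.take 1) ht
    rwa [List.take_take, List.take_take, min_eq_left hj1] at this

/-- a word starting with a letter not fixing `g` gives an opposite word -/
theorem opp_of_first {v w : List (Perm ℤ)} (hn : 1 ≤ n) (hv : Vx n v) (hw : Vx n w)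
    {g : ℤ → ℚ} (hg : OF n g) (hg2 : Fj v (n - 1) g) {t : Perm ℤ} {l : List (Perm ℤ)}
    (hwt : w = t :: l) (htg : ¬ ∀ x, g (t x) = g x) :
    ∃ k w', Rch k w w' ∧ w'.take 1 = [t] ∧ Opp n v w' n := by
  have ho : Opp n v w 1 := by
    intro i hi F hF h1 h2
    have h00 : ∀ F, OF n F → Fj w 0 F → Fj v (n - 0) F → F = 0 := by
      intro F hF _ h4
      apply hv.eq_zero hn hF
      rwa [Nat.sub_zero, Fj_length (by rw [hv.2.2])] at h4
    rcases Nat.lt_or_ge 0 i with h3 | h3
    · have : i = 0 + 1 := by omega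
      subst this
      have hget : w[0]? = some t := by rw [hwt]; simp
      rw [Fj_succ hget] at h1
      exact opp_aux (w := w) (j := 0) hv (by omega) h00 hg (Fj_zero _ _)
        (by simpa using hg2) htg hF h1.1 h1.2 (by simpa using h2)
    · have : i = 0 := by omega
      subst this
      exact h00 F hF h1 h2
  obtain ⟨k, w', hk, ht, ho'⟩ := opp_exists hn hv (n - 1) 1 (by omega) w hw le_rfl ho
  exact ⟨k, w', hk, by rw [ht, hwt]; rfl, ho'⟩

theorem Vx_st (hn : 1 ≤ n) : Vx n (st n) := ⟨st_ASL le_rfl, rfl, st_length n⟩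

theorem sh_in_word : ∀ (i : ℕ), i < n → ∃ k p, Rch k (st n) (p ++ sh ((i : ℤ) + 1) ::
    (st n).drop (i + 1)) := by
  intro i
  induction i with
  | zero =>
    intro hn
    obtain ⟨m, rfl⟩ : ∃ m, n = m + 1 := ⟨n - 1, by omega⟩
    refine ⟨0, [], ?_⟩
    have : st (m + 1) = [] ++ sh (((0 : ℕ) : ℤ) + 1) :: (st (m + 1)).drop (0 + 1) := by
      rw [st_cons]
      simp [simple]
    rw [← this]
    exact Rch.refl _ _
  | succ i ih =>
    intro hi
    obtain ⟨k, p, hk⟩ := ih (by omega)
    have hd : (st n).drop (i + 1) = simple (i + 1) :: (st n).drop (i + 1 + 1) := by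
      rw [List.drop_eq_getElem_cons (by rw [st_length]; omega)]
      congr 1
      simp [st]
    rw [hd] at hk
    refine ⟨k + 1, p ++ [simple (i + 1)], hk.trans (Rch.single ⟨p, (st n).drop (i + 1 + 1),
      sh ((i : ℤ) + 1), simple (i + 1), rfl, Or.inr ?_⟩)⟩
    have hS := simple_SL (n := n) (i := i + 1) hi
    have e := conj_sh (g := simple (i + 1)) hS.odd ((i : ℤ) + 1)
    rw [hS.inv_eq, simple_succ_apply, if_pos rfl] at e
    rw [e, List.append_assoc]
    push_cast
    rw [show (i : ℤ) + 1 + 1 = (i : ℤ) + 2 by ring]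
    rfl

/-- a start word with first letter short not fixing `g` -/
theorem start_short {g : ℤ → ℚ} (hg : OF n g) (hg0 : g ≠ 0) :
    ∃ k t l, Rch k (st n) (t :: l) ∧ Short t ∧ ¬ ∀ x, g (t x) = g x := by
  have h1 : ∃ i : ℕ, i < n ∧ g ((i : ℤ) + 1) ≠ 0 := by
    by_contra hcon
    push Not at hcon
    apply hg0
    funext x
    by_cases hx0 : x = 0
    · rw [hx0, hg.zero]; rfl
    by_cases hx : |x| ≤ n
    · rw [abs_le] at hx
      rcases lt_or_gt_of_ne hx0 with h | h
      · have := hcon (-x - 1).toNat (by omega)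
        rw [show (((-x - 1).toNat : ℕ) : ℤ) + 1 = -x by omega, hg.1] at this
        simpa using this
      · have := hcon (x - 1).toNat (by omega)
        rw [show (((x - 1).toNat : ℕ) : ℤ) + 1 = x by omega] at this
        simpa using this
    · exact hg.2 x (by omega)
  obtain ⟨i, hi, hgi⟩ := h1
  obtain ⟨k, p, hk⟩ := sh_in_word i hi
  obtain ⟨k2, l, hk2⟩ := bring (t := sh ((i : ℤ) + 1))
    (l := p ++ sh ((i : ℤ) + 1) :: (st n).drop (i + 1)) (by simp)
  refine ⟨k + k2, sh ((i : ℤ) + 1), l, hk.trans hk2, short_sh (by omega), ?_⟩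
  intro h
  have := h ((i : ℤ) + 1)
  rw [sh_apply, if_pos rfl, hg.1] at this
  apply hgi
  linarith

/-- a start word with first letter long not fixing `g` -/
theorem start_long (hn : 2 ≤ n) {g : ℤ → ℚ} (hg : OF n g) (hg0 : g ≠ 0) :
    ∃ k t l, Rch k (st n) (t :: l) ∧ ¬ Short t ∧ ¬ ∀ x, g (t x) = g x := by
  by_cases hcase : ∃ i : ℕ, i + 1 < n ∧ ¬ ∀ x, g (simple (i + 1) x) = g x
  · obtain ⟨i, hi, hgi⟩ := hcase
    obtain ⟨k, l, hk⟩ := bring (t := simple (i + 1)) (l := st n) (by
      simp only [st, List.mem_map, List.mem_range]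
      exact ⟨i + 1, hi, rfl⟩)
    exact ⟨k, simple (i + 1), l, hk, simple_long i, hgi⟩
  · push Not at hcase
    have h1 : ∀ i : ℕ, i < n → g ((i : ℤ) + 1) = g 1 := by
      intro i
      induction i with
      | zero => intro _; simp
      | succ i ih =>
        intro hi
        have h2 := hcase i hi ((i : ℤ) + 1)
        rw [simple_succ_apply, if_pos rfl] at h2
        rw [← ih (by omega), ← h2]
        push_cast
        congr 1
    have h2 : g 1 ≠ 0 := by
      intro h0
      apply hg0
      funext x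
      by_cases hx0 : x = 0
      · rw [hx0, hg.zero]; rfl
      by_cases hx : |x| ≤ n
      · rw [abs_le] at hx
        rcases lt_or_gt_of_ne hx0 with h | h
        · have := h1 (-x - 1).toNat (by omega)
          rw [show (((-x - 1).toNat : ℕ) : ℤ) + 1 = -x by omega, hg.1, h0] at this
          simpa using this
        · have := h1 (x - 1).toNat (by omega)
          rw [show (((x - 1).toNat : ℕ) : ℤ) + 1 = x by omega, h0] at this
          simpa using this
      · exact hg.2 x (by omega)
    obtain ⟨m, rfl⟩ : ∃ m, n = m + 2 := ⟨n - 2, by omega⟩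
    have e : st (m + 2) = simple 0 :: simple 1 :: (List.range m).map (fun i => simple (i + 2)) := by
      rw [st_cons, List.range_succ_eq_map, List.map_cons, List.map_map]
      rfl
    have h0S := simple_SL (n := m + 2) (i := 0) (by omega)
    have h1S := simple_SL (n := m + 2) (i := 1) (by omega)
    refine ⟨1, simple 0 * simple 1 * simple 0, simple 0 :: (List.range m).map
      (fun i => simple (i + 2)), ?_, ?_, ?_⟩
    · rw [e]
      exact Rch.single ⟨[], _, simple 0, simple 1, rfl, Or.inl rfl⟩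
    · rw [short_conj_iff h0S]
      exact simple_long 0
    · intro h
      have h3 := h (-1)
      have e1 : (simple 0 * simple 1 * simple 0) (-1) = 2 := by
        rw [Perm.mul_apply, Perm.mul_apply, simple_zero_apply (-1), if_neg (by omega), if_pos rfl]
        have := simple_succ_apply 0 1
        rw [show simple 1 1 = 2 by simpa using this, simple_zero_apply]
        simp
      rw [e1, hg.1] at h3
      have h4 := h1 1 (by omega)
      push_cast at h4
      apply h2
      linarith

/-- **Lower bound.** -/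
theorem lower (hn : 2 ≤ n) {v : List (Perm ℤ)} (hv : Vx n v) :
    ∃ w, (∃ k, Rch k (st n) w) ∧ ∀ k, Rch k v w → n.choose 2 + 1 ≤ k := by
  have hn1 : 1 ≤ n := by omega
  -- the position of the short letter of `v`
  have htw : ∀ u, Vx n u → tw u = 2 * n - 1 := fun u hu =>
    tw_of_cox hn1 le_rfl (good_of_cox hn1 u hu.1 hu.2.1 hu.2.2) hu.2.2 hu.2.1
  obtain ⟨z, hz, hzs⟩ := exists_shAt (l := v) (by rw [htw v hv, hv.2.2]; omega)
  rw [hv.2.2] at hz
  obtain ⟨g, hg, hg2, hg3⟩ := exists_gen hn1 hv (i := n - 1) (by omega)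
  have hg0 : g ≠ 0 := by
    rintro rfl
    exact hg3 not_Fj_zero_fun
  have hS : ∃ k t l, Rch k (st n) (t :: l) ∧ (¬ ∀ x, g (t x) = g x) ∧
      ((z ≠ n - 1 ∧ Short t) ∨ (z = n - 1 ∧ ¬ Short t)) := by
    by_cases hzn : z = n - 1
    · obtain ⟨k, t, l, h1, h2, h3⟩ := start_long hn hg hg0
      exact ⟨k, t, l, h1, h3, Or.inr ⟨hzn, h2⟩⟩
    · obtain ⟨k, t, l, h1, h2, h3⟩ := start_short hg hg0
      exact ⟨k, t, l, h1, h3, Or.inl ⟨hzn, h2⟩⟩
  obtain ⟨k0, t, l, hR, htg, htype⟩ := hS
  have hw0 : Vx n (t :: l) := (Vx_st hn1).rch hR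
  obtain ⟨k1, w, hR1, hw1, ho⟩ := opp_of_first hn1 hv hw0 hg hg2 rfl htg
  have hw : Vx n w := hw0.rch hR1
  refine ⟨w, ⟨k0 + k1, hR.trans hR1⟩, ?_⟩
  intro k hk
  have hQ := QQ_rch hk hv.1 (QQ_self hn1 hv hz hzs)
  rw [zero_add] at hQ
  have hcard := opp_Inv hn1 hv hw ho
  have h1 := hQ.1
  rw [hcard] at h1
  by_contra hlt
  have hk2 : n.choose 2 = k := by omega
  obtain ⟨j, hj1, hj2, hj3⟩ := hQ.2 (by rw [hcard, hk2])
  have hjn : j < n := by
    obtain ⟨s, hs, -⟩ := hj3
    have := (List.getElem?_eq_some_iff.mp hs).1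
    rwa [hw.2.2] at this
  rw [opp_lam hn1 hv hw ho _ (by omega)] at hj1 hj2
  have hjz : j = n - 1 - z := by omega
  -- first letter of `w`
  have hwl : ∃ l', w = t :: l' := by
    cases w with
    | nil => simp at hw1
    | cons a l' =>
      have : a = t := by simpa using hw1
      exact ⟨l', by rw [this]⟩
  obtain ⟨l', rfl⟩ := hwl
  rcases htype with ⟨hzn, hsh⟩ | ⟨hzn, hsh⟩
  · -- two short letters
    obtain ⟨i, rfl⟩ : ∃ i, j = i + 1 := ⟨j - 1, by omega⟩
    obtain ⟨s, hs, hss⟩ := hj3
    have h3 : ShAt l' i := ⟨s, by simpa using hs, hss⟩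
    have h4 := shAt_tw h3
    have h5 := htw _ hw
    rw [tw_cons, wt_short hsh] at h5
    have h6 := hw.2.2
    rw [List.length_cons] at h6
    omega
  · have : j = 0 := by omega
    subst this
    obtain ⟨s, hs, hss⟩ := hj3
    have h3 : t = s := by simpa using hs
    rw [← h3] at hss
    exact hsh hss

end Pool.Agent.Helper94.Hurwitz
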