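import Pool.Agent.Helper94.Hurwitz.Letters

set_option autoImplicit false

open Equiv

namespace Pool.Agent.Helper94.Hurwitz

open Classical in
/-- weight: number of transpositions -/
noncomputable def wt (t : Perm ℤ) : ℕ := if Short t then 1 else 2

theorem wt_congr {t t' : Perm ℤ} (h : Short t ↔ Short t') : wt t = wt t' := by
  unfold wt
  by_cases h1 : Short t
  · rw [if_pos h1, if_pos (h.mp h1)]
  · rw [if_neg h1, if_neg (fun h2 => h1 (h.mpr h2))]

noncomputable def tw (u : List (Perm ℤ)) : ℕ := (u.map wt).sum

theorem wt_le (t : Perm ℤ) : wt t ≤ 2 := by unfold wt; split_ifs <;> omega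
theorem one_le_wt (t : Perm ℤ) : 1 ≤ wt t := by unfold wt; split_ifs <;> omega
theorem wt_short {t : Perm ℤ} (h : Short t) : wt t = 1 := by unfold wt; rw [if_pos h]
theorem wt_long {t : Perm ℤ} (h : ¬ Short t) : wt t = 2 := by unfold wt; rw [if_neg h]

@[simp] theorem tw_nil : tw [] = 0 := rfl
@[simp] theorem tw_cons (t : Perm ℤ) (u : List (Perm ℤ)) : tw (t :: u) = wt t + tw u := by
  simp [tw]
@[simp] theorem tw_append (u v : List (Perm ℤ)) : tw (u ++ v) = tw u + tw v := by
  simp [tw]

theorem tw_le (u : List (Perm ℤ)) : tw u ≤ 2 * u.length := by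
  induction u with
  | nil => simp
  | cons t u ih => rw [tw_cons, List.length_cons]; have := wt_le t; omega

/-- all letters are concrete reflections -/
def ASL (n : ℕ) (u : List (Perm ℤ)) : Prop := ∀ t ∈ u, SL n t

theorem ASL.append {n : ℕ} {u v : List (Perm ℤ)} (hu : ASL n u) (hv : ASL n v) :
    ASL n (u ++ v) := by
  intro t ht
  rcases List.mem_append.mp ht with h | h
  · exact hu t h
  · exact hv t h

theorem ASL.left {n : ℕ} {u v : List (Perm ℤ)} (h : ASL n (u ++ v)) : ASL n u :=
  fun t ht => h t (List.mem_append_left _ ht)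

theorem ASL.right {n : ℕ} {u v : List (Perm ℤ)} (h : ASL n (u ++ v)) : ASL n v :=
  fun t ht => h t (List.mem_append_right _ ht)

theorem ASL.head {n : ℕ} {t : Perm ℤ} {v : List (Perm ℤ)} (h : ASL n (t :: v)) : SL n t :=
  h t (by simp)

theorem ASL.tail {n : ℕ} {t : Perm ℤ} {v : List (Perm ℤ)} (h : ASL n (t :: v)) : ASL n v :=
  fun s hs => h s (by simp [hs])

theorem ASL.cons {n : ℕ} {t : Perm ℤ} {v : List (Perm ℤ)} (h : SL n t) (h' : ASL n v) :
    ASL n (t :: v) := by
  intro s hs
  rcases List.mem_cons.mp hs with rfl | h1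
  · exact h
  · exact h' s h1

section moves

variable {n : ℕ} {u v : List (Perm ℤ)}

theorem move_ASL (h : HurwitzMove u v) (hu : ASL n u) : ASL n v := by
  obtain ⟨p, q, s, t, rfl, hv⟩ := h
  have hs : SL n s := hu s (by simp)
  have ht : SL n t := hu t (by simp)
  have hp : ASL n p := hu.left
  have hq : ASL n q := fun x hx => hu x (by simp [hx])
  rcases hv with rfl | rfl
  · exact hp.append (ASL.cons (ht.conj hs) (ASL.cons hs hq))
  · exact hp.append (ASL.cons ht (ASL.cons (hs.conj ht) hq))

theorem move_refl (h : HurwitzMove u v) (hu : ∀ t ∈ u, t ∈ reflections n) :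
    ∀ t ∈ v, t ∈ reflections n := by
  obtain ⟨p, q, s, t, rfl, hv⟩ := h
  have hs : s ∈ reflections n := hu s (by simp)
  have ht : t ∈ reflections n := hu t (by simp)
  intro x hx
  rcases hv with rfl | rfl
  · simp only [List.mem_append, List.mem_cons] at hx
    rcases hx with hx | rfl | rfl | hx
    · exact hu x (by simp [hx])
    · exact reflections_conj' ht hs
    · exact hs
    · exact hu x (by simp [hx])
  · simp only [List.mem_append, List.mem_cons] at hx
    rcases hx with hx | rfl | rfl | hx
    · exact hu x (by simp [hx])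
    · exact ht
    · exact reflections_conj' hs ht
    · exact hu x (by simp [hx])

theorem move_prod (h : HurwitzMove u v) (hu : ASL n u) : v.prod = u.prod := by
  obtain ⟨p, q, s, t, rfl, hv⟩ := h
  have hs := (hu s (by simp)).mul_self
  have ht := (hu t (by simp)).mul_self
  rcases hv with rfl | rfl
  · simp only [List.prod_append, List.prod_cons]
    rw [← mul_assoc (s * t * s), mul_assoc (s * t), hs, mul_one, mul_assoc s]
  · simp only [List.prod_append, List.prod_cons]
    rw [← mul_assoc t, mul_assoc t s, ← mul_assoc t t, ht, one_mul, mul_assoc s]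

theorem move_length (h : HurwitzMove u v) : v.length = u.length := by
  obtain ⟨p, q, s, t, rfl, rfl | rfl⟩ := h <;> simp

theorem move_tw (h : HurwitzMove u v) (hu : ASL n u) : tw v = tw u := by
  obtain ⟨p, q, s, t, rfl, hv⟩ := h
  have hs := hu s (by simp)
  have ht := hu t (by simp)
  have e1 : wt (s * t * s) = wt t := wt_congr (short_conj_iff hs)
  have e2 : wt (t * s * t) = wt s := wt_congr (short_conj_iff ht)
  rcases hv with rfl | rfl <;> simp only [tw_append, tw_cons, e1, e2] <;> omega

theorem move_context (h : HurwitzMove u v) (a b : List (Perm ℤ)) :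
    HurwitzMove (a ++ u ++ b) (a ++ v ++ b) := by
  obtain ⟨p, q, s, t, rfl, hv⟩ := h
  refine ⟨a ++ p, q ++ b, s, t, by simp, ?_⟩
  rcases hv with rfl | rfl
  · left; simp
  · right; simp

/-- Hurwitz moves are reversible. -/
theorem move_symm (h : HurwitzMove u v) (hu : ASL n u) : HurwitzMove v u := by
  obtain ⟨p, q, s, t, rfl, hv⟩ := h
  have hs := (hu s (by simp)).mul_self
  have ht := (hu t (by simp)).mul_self
  rcases hv with rfl | rfl
  · refine ⟨p, q, s * t * s, s, rfl, Or.inr ?_⟩
    have : s * (s * t * s) * s = t := by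
      calc s * (s * t * s) * s = (s * s) * t * (s * s) := by group
        _ = t := by rw [hs, one_mul, mul_one]
    rw [this]
  · refine ⟨p, q, t, t * s * t, rfl, Or.inl ?_⟩
    have : t * (t * s * t) * t = s := by
      calc t * (t * s * t) * t = (t * t) * s * (t * t) := by group
        _ = s := by rw [ht, one_mul, mul_one]
    rw [this]

end moves

/-- `Rch k u v`: `v` is reached from `u` by at most `k` Hurwitz moves. -/
inductive Rch : ℕ → List (Perm ℤ) → List (Perm ℤ) → Prop
  | refl (k : ℕ) (u : List (Perm ℤ)) : Rch k u u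
  | step {k : ℕ} {u v w : List (Perm ℤ)} : HurwitzMove u v → Rch k v w → Rch (k + 1) u w

namespace Rch

variable {n k k' : ℕ} {u v w : List (Perm ℤ)}

theorem mono (h : Rch k u v) : ∀ {k' : ℕ}, k ≤ k' → Rch k' u v := by
  induction h with
  | refl k u => intro k' _; exact Rch.refl k' u
  | step h1 h2 ih =>
    intro k' hk
    obtain ⟨j, rfl⟩ : ∃ j, k' = j + 1 := ⟨k' - 1, by omega⟩
    exact Rch.step h1 (ih (by omega))

theorem trans (h : Rch k u v) (h' : Rch k' v w) : Rch (k + k') u w := by
  induction h with
  | refl k u => exact h'.mono (by omega)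
  | step h1 h2 ih =>
    have := Rch.step h1 (ih h')
    exact this.mono (by omega)

theorem single (h : HurwitzMove u v) : Rch 1 u v := Rch.step h (Rch.refl 0 v)

theorem context (h : Rch k u v) (a b : List (Perm ℤ)) : Rch k (a ++ u ++ b) (a ++ v ++ b) := by
  induction h with
  | refl k u => exact Rch.refl _ _
  | step h1 h2 ih => exact Rch.step (move_context h1 a b) ih

theorem cons (h : Rch k u v) (a : Perm ℤ) : Rch k (a :: u) (a :: v) := by
  simpa using h.context [a] []

theorem appendL (h : Rch k u v) (a : List (Perm ℤ)) : Rch k (a ++ u) (a ++ v) := by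
  simpa using h.context a []

theorem appendR (h : Rch k u v) (b : List (Perm ℤ)) : Rch k (u ++ b) (v ++ b) := by
  simpa using h.context [] b

theorem asl (h : Rch k u v) (hu : ASL n u) : ASL n v := by
  induction h with
  | refl k u => exact hu
  | step h1 h2 ih => exact ih (move_ASL h1 hu)

theorem mem_refl (h : Rch k u v) (hu : ∀ t ∈ u, t ∈ reflections n) :
    ∀ t ∈ v, t ∈ reflections n := by
  induction h with
  | refl k u => exact hu
  | step h1 h2 ih => exact ih (move_refl h1 hu)

theorem prod (h : Rch k u v) (hu : ASL n u) : v.prod = u.prod := by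
  induction h with
  | refl k u => rfl
  | step h1 h2 ih => rw [ih (move_ASL h1 hu), move_prod h1 hu]

theorem length (h : Rch k u v) : v.length = u.length := by
  induction h with
  | refl k u => rfl
  | step h1 h2 ih => rw [ih, move_length h1]

theorem tweq (h : Rch k u v) (hu : ASL n u) : tw v = tw u := by
  induction h with
  | refl k u => rfl
  | step h1 h2 ih => rw [ih (move_ASL h1 hu), move_tw h1 hu]

theorem symm (h : Rch k u v) (hu : ASL n u) : Rch k v u := by
  induction h with
  | refl k u => exact Rch.refl k u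
  | step h1 h2 ih =>
    exact (ih (move_ASL h1 hu)).trans (single (move_symm h1 hu))

end Rch

end Pool.Agent.Helper94.Hurwitz
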