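import Pool.Agent.Helper94.Hurwitz.Moves

set_option autoImplicit false

open Equiv

namespace Pool.Agent.Helper94.Hurwitz

variable {n : ℕ}

/-- `u` is almost of minimal weight among the words with the same product. -/
def Good (n : ℕ) (u : List (Perm ℤ)) : Prop :=
  ASL n u ∧ ∀ v : List (Perm ℤ), ASL n v → v.prod = u.prod → tw u ≤ tw v + 1

theorem Good.sub {p q r : List (Perm ℤ)} (h : Good n (p ++ q ++ r)) : Good n q := by
  have h1 := h.1
  refine ⟨h1.left.right, fun v hv he => ?_⟩
  have h2 := h.2 (p ++ v ++ r) ((h1.left.left.append hv).append h1.right)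
    (by simp only [List.prod_append, he])
  simp only [tw_append] at h2
  omega

theorem Good.left {p q : List (Perm ℤ)} (h : Good n (p ++ q)) : Good n p := by
  have : Good n ([] ++ p ++ q) := by simpa using h
  exact this.sub

theorem Good.right {p q : List (Perm ℤ)} (h : Good n (p ++ q)) : Good n q := by
  have : Good n (p ++ q ++ []) := by simpa using h
  exact this.sub

theorem Good.tail {t : Perm ℤ} {q : List (Perm ℤ)} (h : Good n (t :: q)) : Good n q :=
  Good.right (p := [t]) h

theorem Good.rch {k : ℕ} {u v : List (Perm ℤ)} (h : Good n u) (hr : Rch k u v) : Good n v := by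
  refine ⟨hr.asl h.1, fun w hw he => ?_⟩
  rw [hr.tweq h.1]
  exact h.2 w hw (by rw [he, hr.prod h.1])

theorem Good.pair {t s : Perm ℤ} {q : List (Perm ℤ)} (h : Good n (t :: s :: q)) :
    Good n [t, s] := Good.left (p := [t, s]) h

/-- two equal adjacent letters are impossible -/
theorem Good.ne {t s : Perm ℤ} {q : List (Perm ℤ)} (h : Good n (t :: s :: q)) : t ≠ s := by
  rintro rfl
  have h1 := h.pair
  have h2 := h1.2 [] (fun _ hx => absurd hx (by simp)) (by
    simp [h1.1.head.mul_self])
  have h3 := one_le_wt t
  simp at h2
  omega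

theorem sh_SL {a : ℤ} (ha : a ≠ 0) (ha' : |a| ≤ n) : SL n (sh a) := Or.inl ⟨a, ha, ha', rfl⟩

theorem short_sh {a : ℤ} (ha : a ≠ 0) : Short (sh a) := ⟨a, ha, by rw [sh_apply, if_pos rfl]⟩

/-- the pair `(p a)(-p -a), (p -a)(-p a)` is impossible -/
theorem Good.ne_neg {t s : Perm ℤ} {q : List (Perm ℤ)} (h : Good n (t :: s :: q)) {p : ℤ}
    (hp : t p ≠ p) (hs : s p = - t p) : Short t := by
  by_contra hlong
  have h1 := h.pair
  have ht := h1.1.head
  have hs' : SL n s := h1.1.tail.head
  have hp0 := (ht.bound hp).1
  have hpn := (ht.bound hp).2.1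
  have han := (ht.bound hp).2.2
  have ha0 : t p ≠ 0 := ht.apply_ne_zero hp0
  have hpa : t p ≠ -p := fun h2 => hlong ((ht.short_iff hp).mpr h2)
  have hsp : s p ≠ p := by rw [hs]; omega
  have hslong : ¬ Short s := by
    rw [hs'.short_iff hsp, hs]; omega
  have h2 := h1.2 [sh p, sh (t p)] (ASL.cons (sh_SL hp0 hpn) (ASL.cons (sh_SL ha0 han)
    (fun _ hx => absurd hx (by simp)))) (by
    simp only [List.prod_cons, List.prod_nil, mul_one]
    ext x
    simp only [Perm.mul_apply]
    have tp := ht.invol p
    have sp := hs'.invol p
    rw [hs] at sp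
    have so := hs'.odd
    have od := ht.odd
    have s1 : s (t p) = - p := by
      have := so (- t p); rw [neg_neg, sp] at this; exact this
    have s2 : s (-p) = t p := by rw [so, hs, neg_neg]
    have t2 : t (-p) = - t p := od p
    have t3 : t (- t p) = - p := by rw [od, tp]
    symm
    by_cases h1 : x = p
    · subst h1
      rw [hs, t3, sh_apply (t x), if_neg (Ne.symm hp), if_neg (by omega), sh_apply, if_pos rfl]
    by_cases h2 : x = -p
    · rw [h2, s2, tp, sh_apply (t p), if_neg (by omega), if_neg (by omega), sh_apply,
        if_neg (by omega), if_pos rfl]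
    by_cases h3 : x = t p
    · rw [h3, s1, t2, sh_apply (t p), if_pos rfl, sh_apply, if_neg (by omega), if_neg (by omega)]
    by_cases h4 : x = - t p
    · rw [h4, sp, sh_apply (t p), if_neg (by omega), if_pos rfl, sh_apply, if_neg (by omega),
        if_neg (by omega)]
    have f1 : s x = x := hs'.fix_of hsp h1 h2 (by rw [hs]; exact h4) (by rw [hs, neg_neg]; exact h3)
    rw [f1, ht.fix_of hp h1 h2 h3 h4, sh_apply (t p), if_neg h3, if_neg h4, sh_apply, if_neg h1,
      if_neg h2])
  simp only [tw_cons, tw_nil, wt_long hlong, wt_long hslong, wt_short (short_sh hp0),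
    wt_short (short_sh ha0)] at h2
  omega

/-- carrying a letter that moves `p` to the right end. -/
theorem pass (p : ℤ) : ∀ (l : List (Perm ℤ)) (m : Perm ℤ), m p ≠ p → Good n (m :: l) →
    ∃ (r : List (Perm ℤ)) (m' : Perm ℤ), (∀ x ∈ r, x p = p) ∧ m' p ≠ p ∧
      Rch (l.length + (2 - wt m)) (m :: l) (r ++ [m']) := by
  intro l
  induction l with
  | nil =>
    intro m hm _
    exact ⟨[], m, by simp, hm, Rch.refl _ _⟩
  | cons s l ih =>
    intro m hm hg
    have hmS : SL n m := hg.1.head
    have hsS : SL n s := hg.1.tail.head
    have hms : m ≠ s := hg.ne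
    by_cases hsp : s p = p
    · -- `s` fixes `p`
      have hmove : HurwitzMove (m :: s :: l) (s :: (s * m * s) :: l) :=
        ⟨[], l, m, s, rfl, Or.inr rfl⟩
      have hg1 : Good n (s :: (s * m * s) :: l) := hg.rch (Rch.single hmove)
      have hm1 : (s * m * s) p ≠ p := by
        rw [Perm.mul_apply, Perm.mul_apply, hsp]
        intro h1
        have : s (s (m p)) = s p := by rw [h1]
        rw [hsS.invol, hsp] at this
        exact hm this
      obtain ⟨r, m', hr, hm', hR⟩ := ih (s * m * s) hm1 hg1.tail
      refine ⟨s :: r, m', ?_, hm', ?_⟩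
      · intro x hx
        rcases List.mem_cons.mp hx with rfl | hx
        · exact hsp
        · exact hr x hx
      · rw [wt_congr (short_conj_iff hsS)] at hR
        have := (Rch.single hmove).trans (hR.cons s)
        refine this.mono ?_
        simp only [List.length_cons]; omega
    · by_cases hmsh : Short m
      · -- two moves
        have hmp : m p = -p := (hmS.short_iff hm).mp hmsh
        have hp0 := (hmS.bound hm).1
        have hb : s p ≠ -p := by
          intro h1
          exact hms (hmS.ext_moved hsS hm (by rw [hmp, h1]))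
        have hmove1 : HurwitzMove (m :: s :: l) (s :: (s * m * s) :: l) :=
          ⟨[], l, m, s, rfl, Or.inr rfl⟩
        set t1 : Perm ℤ := s * m * s with ht1
        have hmove2 : HurwitzMove (s :: t1 :: l) (t1 :: (t1 * s * t1) :: l) :=
          ⟨[], l, s, t1, rfl, Or.inr rfl⟩
        have hg1 := hg.rch (Rch.single hmove1)
        have hg2 := hg1.rch (Rch.single hmove2)
        have ht1S : SL n t1 := hg1.1.tail.head
        have hmb : m (s p) = s p := by
          apply hmS.fix_of hm hsp hb
          · rw [hmp]; exact hb
          · rw [hmp, neg_neg]; exact hsp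
        have ht1p : t1 p = p := by
          rw [ht1, Perm.mul_apply, Perm.mul_apply, hmb, hsS.invol]
        have hm2 : (t1 * s * t1) p ≠ p := by
          rw [Perm.mul_apply, Perm.mul_apply, ht1p, ht1, Perm.mul_apply, Perm.mul_apply,
            hsS.invol, hmp, hsS.odd]
          intro h1
          apply hb
          omega
        obtain ⟨r, m', hr, hm', hR⟩ := ih (t1 * s * t1) hm2 hg2.tail
        refine ⟨t1 :: r, m', ?_, hm', ?_⟩
        · intro x hx
          rcases List.mem_cons.mp hx with rfl | hx
          · exact ht1p
          · exact hr x hx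
        · have hsl : ¬ Short s := by
            rw [hsS.short_iff hsp]; exact hb
          rw [wt_congr (short_conj_iff ht1S), wt_long hsl] at hR
          have := ((Rch.single hmove1).trans (Rch.single hmove2)).trans (hR.cons t1)
          refine this.mono ?_
          rw [wt_short hmsh]
          simp only [List.length_cons]; omega
      · -- `m` long
        have hmove : HurwitzMove (m :: s :: l) ((m * s * m) :: m :: l) :=
          ⟨[], l, m, s, rfl, Or.inl rfl⟩
        have hg1 := hg.rch (Rch.single hmove)
        have hsa : s (m p) = m p := by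
          have h3 : m p ≠ s p := by
            intro h1
            exact hms (hmS.ext_moved hsS hm h1.symm)
          have h4 : m p ≠ - s p := by
            intro h1
            apply hmsh
            exact hg.ne_neg hm (by omega)
          have h2 : m p ≠ - p := fun h1 => hmsh ((hmS.short_iff hm).mpr h1)
          exact hsS.fix_of hsp hm h2 h3 h4
        have hrp : (m * s * m) p = p := by
          rw [Perm.mul_apply, Perm.mul_apply, hsa, hmS.invol]
        obtain ⟨r, m', hr, hm', hR⟩ := ih m hm hg1.tail
        refine ⟨(m * s * m) :: r, m', ?_, hm', ?_⟩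
        · intro x hx
          rcases List.mem_cons.mp hx with rfl | hx
          · exact hrp
          · exact hr x hx
        · rw [wt_long hmsh] at hR ⊢
          have := (Rch.single hmove).trans (hR.cons (m * s * m))
          refine this.mono ?_
          simp only [List.length_cons]; omega

/-- pass for a whole word whose product moves `p`: at most `length` moves. -/
theorem pass_word (p : ℤ) : ∀ (u : List (Perm ℤ)), u.prod p ≠ p → Good n u →
    ∃ (r : List (Perm ℤ)) (m' : Perm ℤ), (∀ x ∈ r, x p = p) ∧ m' p ≠ p ∧
      Rch u.length u (r ++ [m']) := by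
  intro u
  induction u with
  | nil => intro h _; exact absurd rfl h
  | cons m l ih =>
    intro hp hg
    by_cases hm : m p = p
    · have hl : l.prod p ≠ p := by
        intro h1
        apply hp
        rw [List.prod_cons, Perm.mul_apply, h1, hm]
      obtain ⟨r, m', hr, hm', hR⟩ := ih hl hg.tail
      refine ⟨m :: r, m', ?_, hm', (hR.cons m).mono (by simp)⟩
      intro x hx
      rcases List.mem_cons.mp hx with rfl | hx
      · exact hm
      · exact hr x hx
    · obtain ⟨r, m', hr, hm', hR⟩ := pass p l m hm hg
      refine ⟨r, m', hr, hm', hR.mono ?_⟩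
      have := one_le_wt m
      simp only [List.length_cons]; omega

/-- if the word does not start with a short letter moving `p`, one move less is enough. -/
theorem pass_word' (p : ℤ) (m : Perm ℤ) (l : List (Perm ℤ)) (hp : (m :: l).prod p ≠ p)
    (hg : Good n (m :: l)) (hm : m p = p ∨ ¬ Short m) :
    ∃ (r : List (Perm ℤ)) (m' : Perm ℤ), (∀ x ∈ r, x p = p) ∧ m' p ≠ p ∧
      Rch l.length (m :: l) (r ++ [m']) := by
  by_cases hmp : m p = p
  · have hl : l.prod p ≠ p := by
      intro h1
      apply hp
      rw [List.prod_cons, Perm.mul_apply, h1, hmp]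
    obtain ⟨r, m', hr, hm', hR⟩ := pass_word p l hl hg.tail
    refine ⟨m :: r, m', ?_, hm', hR.cons m⟩
    intro x hx
    rcases List.mem_cons.mp hx with rfl | hx
    · exact hmp
    · exact hr x hx
  · have hsm : ¬ Short m := hm.resolve_left hmp
    obtain ⟨r, m', hr, hm', hR⟩ := pass p l m hmp hg
    refine ⟨r, m', hr, hm', hR.mono ?_⟩
    rw [wt_long hsm]; omega

end Pool.Agent.Helper94.Hurwitz
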