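import Pool.Agent.Helper94.Hurwitz.Pass

set_option autoImplicit false

open Equiv

namespace Pool.Agent.Helper94.Hurwitz

variable {n : ℕ}

/-- the standard word `(s₀, s₁, …, s_{k-1})` -/
def st (k : ℕ) : List (Perm ℤ) := (List.range k).map simple

theorem st_succ (k : ℕ) : st (k + 1) = st k ++ [simple k] := by
  unfold st; rw [List.range_succ, List.map_append]; rfl

theorem st_prod (k : ℕ) : (st k).prod = coxeterElement k := rfl

theorem cox_succ (k : ℕ) : coxeterElement (k + 1) = coxeterElement k * simple k := by
  rw [← st_prod, st_succ, List.prod_append, st_prod]; simp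

theorem st_length (k : ℕ) : (st k).length = k := by simp [st]

theorem simple_succ_apply (i : ℕ) (x : ℤ) : simple (i + 1) x =
    if x = (i : ℤ) + 1 then (i : ℤ) + 2 else if x = (i : ℤ) + 2 then (i : ℤ) + 1
    else if x = -((i : ℤ) + 1) then -((i : ℤ) + 2) else if x = -((i : ℤ) + 2) then -((i : ℤ) + 1)
    else x := by
  change lg ((i : ℤ) + 1) ((i : ℤ) + 2) x = _
  rw [lg_apply (by omega) (by omega) (by omega) (by omega)]

theorem simple_zero_apply (x : ℤ) : simple 0 x =
    if x = 1 then -1 else if x = -1 then 1 else x := by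
  change sh 1 x = _
  rw [sh_apply]

/-- `c_k` on positive integers -/
theorem cox_apply : ∀ (k : ℕ) (x : ℤ), 1 ≤ k → 1 ≤ x →
    coxeterElement k x = if x < k then x + 1 else if x = k then -1 else x := by
  intro k
  induction k with
  | zero => intro x hk; omega
  | succ k ih =>
    intro x _ hx
    rcases k with _ | k
    · rw [cox_succ, Perm.mul_apply, simple_zero_apply]
      have h0 : ∀ y, coxeterElement 0 y = y := fun y => by simp [coxeterElement]
      rw [h0]
      push_cast
      split_ifs <;> omega
    · rw [cox_succ, Perm.mul_apply]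
      have h1 := simple_succ_apply k x
      by_cases hx1 : x = (k : ℤ) + 1
      · rw [h1, if_pos hx1, ih _ (by omega) (by omega)]
        push_cast
        split_ifs <;> omega
      by_cases hx2 : x = (k : ℤ) + 2
      · rw [h1, if_neg hx1, if_pos hx2, ih _ (by omega) (by omega)]
        push_cast
        split_ifs <;> omega
      · rw [h1, if_neg hx1, if_neg hx2, if_neg (by omega), if_neg (by omega),
          ih _ (by omega) hx]
        push_cast
        split_ifs <;> omega

theorem st_ASL {k : ℕ} (hk : k ≤ n) : ASL n (st k) := by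
  intro t ht
  simp only [st, List.mem_map, List.mem_range] at ht
  obtain ⟨i, hi, rfl⟩ := ht
  exact simple_SL (by omega)

theorem prod_fix {p : ℤ} : ∀ (r : List (Perm ℤ)), (∀ x ∈ r, x p = p) → r.prod p = p := by
  intro r
  induction r with
  | nil => intro _; rfl
  | cons t r ih =>
    intro h
    rw [List.prod_cons, Perm.mul_apply, ih (fun x hx => h x (by simp [hx])), h t (by simp)]

/-- identification of the last letter after a pass -/
theorem last_letter {r : List (Perm ℤ)} {m' s C : Perm ℤ} {p q : ℤ}
    (hA : ASL n (r ++ [m'])) (hprod : (r ++ [m']).prod = C) (hr : ∀ x ∈ r, x p = p)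
    (hC : C q = p) (hqp : q ≠ p) (hs : SL n s) (hsp : s p = q) :
    m' = s ∧ r.prod = C * s := by
  have hm' : SL n m' := hA m' (by simp)
  have h1 : r.prod * m' = C := by
    rw [← hprod, List.prod_append]; simp
  have h2 : r.prod (m' q) = p := by rw [← Perm.mul_apply, h1, hC]
  have h3 : m' q = p := r.prod.injective (by rw [h2, prod_fix r hr])
  have h4 : m' p = q := by rw [← h3, hm'.invol]
  have h5 : m' = s := by
    apply hm'.ext_moved hs (p := p)
    · rw [h4]; exact hqp
    · rw [h4, hsp]
  refine ⟨h5, ?_⟩
  rw [← h1, h5, mul_assoc, hs.mul_self, mul_one]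

theorem simple_apply_self {k : ℕ} (hk : 1 ≤ k) : simple k ((k : ℤ) + 1) = k := by
  obtain ⟨j, rfl⟩ : ∃ j, k = j + 1 := ⟨k - 1, by omega⟩
  rw [simple_succ_apply]
  push_cast
  rw [if_neg (by omega), if_pos (by ring)]

/-- Connectivity. -/
theorem conn : ∀ (m : ℕ), 1 ≤ m → m ≤ n → ∀ u : List (Perm ℤ), Good n u → u.length = m →
    u.prod = coxeterElement m → ∃ k, Rch k u (st m) := by
  intro m
  induction m with
  | zero => intro h; omega
  | succ m ih =>
    intro _ hmn u hg hlen hprod
    rcases Nat.eq_zero_or_pos m with rfl | hm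
    · obtain ⟨t, rfl⟩ : ∃ t, u = [t] := List.length_eq_one_iff.mp (by simpa using hlen)
      refine ⟨0, ?_⟩
      have : t = simple 0 := by
        have h1 := hprod
        rw [cox_succ] at h1
        simpa [coxeterElement] using h1
      rw [this]
      exact Rch.refl _ _
    · have hmv : u.prod ((m : ℤ) + 1) ≠ (m : ℤ) + 1 := by
        rw [hprod, cox_apply _ _ (by omega) (by omega)]
        push_cast
        split_ifs <;> omega
      obtain ⟨r, m', hr, hm', hR⟩ := pass_word ((m : ℤ) + 1) u hmv hg
      have hA := hR.asl hg.1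
      have hP := hR.prod hg.1
      obtain ⟨h1, h2⟩ := last_letter (C := coxeterElement (m + 1)) (q := m) (s := simple m)
        hA (by rw [hP, hprod]) hr
        (by rw [cox_apply _ _ (by omega) (by omega)]; push_cast; split_ifs <;> omega)
        (by omega) (simple_SL (by omega)) (simple_apply_self hm)
      have hrl : r.length = m := by
        have := hR.length
        rw [hlen] at this
        simpa using this
      have hrp : r.prod = coxeterElement m := by
        rw [h2, cox_succ, mul_assoc, (simple_SL (n := n) (i := m) (by omega)).mul_self, mul_one]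
      obtain ⟨k, hk⟩ := ih hm (by omega) r (hg.rch hR).left hrl hrp
      refine ⟨u.length + k, ?_⟩
      rw [st_succ, ← h1]
      exact hR.trans (hk.appendR [m'])

theorem simple_long (k : ℕ) : ¬ Short (simple (k + 1)) := by
  have h := simple_SL (n := k + 2) (i := k + 1) (by omega)
  have h2 : simple (k + 1) ((k : ℤ) + 1) = (k : ℤ) + 2 := by
    rw [simple_succ_apply, if_pos rfl]
  rw [h.short_iff (p := (k : ℤ) + 1) (by rw [h2]; omega), h2]
  omega

theorem simple_zero_short : Short (simple 0) := ⟨1, one_ne_zero, by rw [simple_zero_apply]; simp⟩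

theorem tw_st (k : ℕ) : tw (st (k + 1)) = 2 * k + 1 := by
  induction k with
  | zero => simp [st, wt_short simple_zero_short]
  | succ k ih =>
    rw [st_succ, tw_append, ih, tw_cons, tw_nil, wt_long (simple_long k)]
    ring

theorem tw_of_cox {m : ℕ} (hm : 1 ≤ m) (hmn : m ≤ n) {u : List (Perm ℤ)} (hg : Good n u)
    (hlen : u.length = m) (hprod : u.prod = coxeterElement m) : tw u = 2 * m - 1 := by
  obtain ⟨k, hk⟩ := conn m hm hmn u hg hlen hprod
  obtain ⟨j, rfl⟩ : ∃ j, m = j + 1 := ⟨m - 1, by omega⟩
  rw [← hk.tweq hg.1, tw_st]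
  omega

/-! ### the type `A` part -/

/-- the word `(1 -m), s₁, …, s_k`. -/
def eA (m k : ℕ) : List (Perm ℤ) :=
  lg 1 (-(m : ℤ)) :: (List.range k).map (fun i => simple (i + 1))

theorem eA_succ (m k : ℕ) : eA m (k + 1) = eA m k ++ [simple (k + 1)] := by
  unfold eA; rw [List.range_succ, List.map_append]; rfl

theorem eA_length (m k : ℕ) : (eA m k).length = k + 1 := by simp [eA]

theorem lg1_SL {m : ℕ} (hm : 2 ≤ m) (hmn : m ≤ n) : SL n (lg 1 (-(m : ℤ))) := by
  right
  refine ⟨1, -(m : ℤ), one_ne_zero, by omega, by omega, by omega, ?_, ?_, rfl⟩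
  · rw [abs_one]; exact_mod_cast (by omega : 1 ≤ n)
  · rw [abs_neg, abs_of_nonneg (by omega)]; exact_mod_cast hmn

theorem eA_ASL {m k : ℕ} (hm : 2 ≤ m) (hmn : m ≤ n) (hk : k + 1 < n ∨ k = 0) : ASL n (eA m k) := by
  intro t ht
  rcases List.mem_cons.mp ht with rfl | ht
  · exact lg1_SL hm hmn
  · simp only [List.mem_map, List.mem_range] at ht
    obtain ⟨i, hi, rfl⟩ := ht
    exact simple_SL (by omega)

theorem eA_apply {m : ℕ} (hm : 2 ≤ m) : ∀ (k : ℕ), k + 1 < m → ∀ x : ℤ, 1 ≤ x → x < m →
    (eA m k).prod x = if x < (k : ℤ) + 1 then x + 1 else if x = (k : ℤ) + 1 then -(m : ℤ) else x := by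
  intro k
  induction k with
  | zero =>
    intro hk x hx hxm
    have e : (eA m 0).prod = lg 1 (-(m : ℤ)) := by simp [eA]
    rw [e, lg_apply (by omega) (by omega) (by omega) (by omega)]
    push_cast
    split_ifs <;> omega
  | succ k ih =>
    intro hk x hx hxm
    rw [eA_succ, List.prod_append, List.prod_singleton, Perm.mul_apply]
    have h1 := simple_succ_apply k x
    by_cases hx1 : x = (k : ℤ) + 1
    · rw [h1, if_pos hx1, ih (by omega) _ (by omega) (by omega)]
      push_cast
      split_ifs <;> omega
    by_cases hx2 : x = (k : ℤ) + 2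
    · rw [h1, if_neg hx1, if_pos hx2, ih (by omega) _ (by omega) (by omega)]
      push_cast
      split_ifs <;> omega
    · rw [h1, if_neg hx1, if_neg hx2, if_neg (by omega), if_neg (by omega),
        ih (by omega) _ hx hxm]
      push_cast
      split_ifs <;> omega

theorem head_long {t : Perm ℤ} {l : List (Perm ℤ)} (h : tw (t :: l) = 2 * (t :: l).length) :
    ¬ Short t := by
  intro hs
  rw [tw_cons, wt_short hs, List.length_cons] at h
  have := tw_le l
  omega

theorem typeA {m : ℕ} (hm : 2 ≤ m) (hmn : m ≤ n) : ∀ (k : ℕ), k + 1 < m → ∀ u : List (Perm ℤ),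
    Good n u → u.length = k + 1 → tw u = 2 * (k + 1) → u.prod = (eA m k).prod →
    Rch ((k + 1).choose 2) u (eA m k) := by
  intro k
  induction k with
  | zero =>
    intro _ u hg hlen htw hprod
    obtain ⟨t, rfl⟩ : ∃ t, u = [t] := List.length_eq_one_iff.mp (by simpa using hlen)
    have : t = lg 1 (-(m : ℤ)) := by simpa [eA] using hprod
    rw [this]
    exact Rch.refl _ _
  | succ k ih =>
    intro hk u hg hlen htw hprod
    obtain ⟨t, l, rfl⟩ : ∃ t l, u = t :: l := by
      cases u with
      | nil => simp at hlen
      | cons t l => exact ⟨t, l, rfl⟩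
    have hlong : ¬ Short t := head_long (by rw [htw, hlen])
    have hmv : (t :: l).prod ((k : ℤ) + 2) ≠ (k : ℤ) + 2 := by
      rw [hprod, eA_apply hm _ hk _ (by omega) (by omega)]
      push_cast
      split_ifs <;> omega
    obtain ⟨r, m', hr, hm', hR⟩ := pass_word' ((k : ℤ) + 2) t l hmv hg (Or.inr hlong)
    have hA := hR.asl hg.1
    have hP := hR.prod hg.1
    have hss : simple (k + 1) ((k : ℤ) + 2) = (k : ℤ) + 1 := by
      have := simple_apply_self (k := k + 1) (by omega)
      push_cast at this
      have e : (k : ℤ) + 1 + 1 = (k : ℤ) + 2 := by ring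
      rwa [e] at this
    obtain ⟨h1, h2⟩ := last_letter (C := (eA m (k + 1)).prod) (q := (k : ℤ) + 1)
      (s := simple (k + 1)) hA (by rw [hP, hprod]) hr
      (by rw [eA_apply hm _ hk _ (by omega) (by omega)]; push_cast; split_ifs <;> omega)
      (by omega) (simple_SL (by omega)) hss
    have hlr := hR.length
    rw [hlen] at hlr
    have hrl : r.length = k + 1 := by simpa using hlr
    have hll : l.length = k + 1 := by simpa using hlen
    have hrp : r.prod = (eA m k).prod := by
      rw [h2, eA_succ, List.prod_append, List.prod_singleton, mul_assoc,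
        (simple_SL (n := n) (i := k + 1) (by omega)).mul_self, mul_one]
    have hrt : tw r = 2 * (k + 1) := by
      have h3 := hR.tweq hg.1
      rw [htw, tw_append, h1, tw_cons, tw_nil, wt_long (simple_long k)] at h3
      omega
    have h4 := ih (by omega) r (hg.rch hR).left hrl hrt hrp
    rw [eA_succ, ← h1]
    refine (hR.trans (h4.appendR [m'])).mono ?_
    rw [hll, Nat.choose_succ_succ' (k + 1) 1, Nat.choose_one_right]

/-- moving the letter `(1 m)` to the right -/
theorem shift {m : ℕ} : ∀ (k : ℕ), k + 1 < m →
    Rch k (lg 1 (m : ℤ) :: (List.range k).map (fun i => simple (i + 1)))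
      ((List.range k).map (fun i => simple (i + 1)) ++ [lg ((k : ℤ) + 1) m]) := by
  intro k
  induction k with
  | zero => intro _; simpa using Rch.refl 0 _
  | succ k ih =>
    intro hk
    have h1 := ih (by omega)
    rw [List.range_succ, List.map_append]
    have h2 := h1.appendR (List.map (fun i => simple (i + 1)) [k])
    refine h2.trans (Rch.single ⟨(List.range k).map (fun i => simple (i + 1)), [],
      lg ((k : ℤ) + 1) m, simple (k + 1), by simp, Or.inr ?_⟩)
    have hS := simple_SL (n := k + 2) (i := k + 1) (by omega)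
    have e := conj_lg (g := simple (k + 1)) hS.odd ((k : ℤ) + 1) m
    rw [hS.inv_eq, simple_succ_apply, if_pos rfl, simple_succ_apply, if_neg (by omega),
      if_neg (by omega), if_neg (by omega), if_neg (by omega)] at e
    rw [e]
    simp only [List.map_cons, List.map_nil, List.append_assoc, List.cons_append, List.nil_append]
    push_cast
    rw [show (k : ℤ) + 1 + 1 = (k : ℤ) + 2 by ring]

theorem st_cons (k : ℕ) : st (k + 1) = simple 0 :: (List.range k).map (fun i => simple (i + 1)) := by
  unfold st
  rw [List.range_succ_eq_map, List.map_cons, List.map_map]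
  rfl

/-- from `([m], (1 -m), s₁, …, s_{m-2})` to the standard word in `m` moves -/
theorem explicit {m : ℕ} (hm : 2 ≤ m) (hmn : m ≤ n) :
    Rch m (sh (m : ℤ) :: eA m (m - 2)) (st m) := by
  obtain ⟨k, rfl⟩ : ∃ k, m = k + 2 := ⟨m - 2, by omega⟩
  have e0 : k + 2 - 2 = k := by omega
  rw [e0]
  set m : ℕ := k + 2 with hmk
  set s : Perm ℤ := lg 1 (-(m : ℤ)) with hs
  have hS : SL n s := lg1_SL hm hmn
  have hmz : (m : ℤ) = (k : ℤ) + 2 := by rw [hmk]; push_cast; ring
  have hsm : s (m : ℤ) = -1 := by
    rw [hs, lg_apply (by omega) (by omega) (by omega) (by omega), if_neg (by omega),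
      if_neg (by omega), if_neg (by omega), if_pos (by ring)]
  have e1 : s * sh (m : ℤ) * s = simple 0 := by
    have := conj_sh hS.odd (m : ℤ)
    rw [hS.inv_eq, hsm] at this
    rw [this]
    change swap (-1 : ℤ) (- -1) = swap 1 (-1)
    rw [neg_neg, swap_comm]
  have h0S : SL n (simple 0) := simple_SL (by omega)
  have e2 : simple 0 * s * simple 0 = lg 1 (m : ℤ) := by
    have := conj_lg h0S.odd 1 (-(m : ℤ))
    rw [h0S.inv_eq, simple_zero_apply, if_pos rfl, simple_zero_apply, if_neg (by omega),
      if_neg (by omega)] at this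
    rw [hs, this]
    apply SL.ext_moved (n := n) (p := 1)
    · right
      refine ⟨-1, -(m : ℤ), by omega, by omega, by omega, by omega, ?_, ?_, rfl⟩
      · rw [abs_neg, abs_one]; exact_mod_cast (by omega : 1 ≤ n)
      · rw [abs_neg, abs_of_nonneg (by omega)]; exact_mod_cast hmn
    · right
      refine ⟨1, (m : ℤ), by omega, by omega, by omega, by omega, ?_, ?_, rfl⟩
      · rw [abs_one]; exact_mod_cast (by omega : 1 ≤ n)
      · rw [abs_of_nonneg (by omega)]; exact_mod_cast hmn
    · rw [lg_apply (by omega) (by omega) (by omega) (by omega)]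
      split_ifs <;> omega
    · rw [lg_apply (by omega) (by omega) (by omega) (by omega),
        lg_apply (by omega) (by omega) (by omega) (by omega)]
      rw [if_pos rfl, if_neg (by omega), if_neg (by omega), if_pos (by omega)]
      omega
  set B : List (Perm ℤ) := (List.range k).map (fun i => simple (i + 1)) with hB
  have hst : eA m k = s :: B := rfl
  rw [hst]
  have mv1 : HurwitzMove (sh (m : ℤ) :: s :: B) (s :: simple 0 :: B) :=
    ⟨[], B, sh (m : ℤ), s, rfl, Or.inr (by rw [e1]; rfl)⟩
  have mv2 : HurwitzMove (s :: simple 0 :: B) (simple 0 :: lg 1 (m : ℤ) :: B) :=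
    ⟨[], B, s, simple 0, rfl, Or.inr (by rw [e2]; rfl)⟩
  have h3 := (shift (m := m) k (by omega)).cons (simple 0)
  have h4 : simple 0 :: (B ++ [lg ((k : ℤ) + 1) (m : ℤ)]) = st m := by
    rw [hmk, st_cons, List.range_succ, List.map_append]
    congr 1
  rw [← h4]
  exact (((Rch.single mv1).trans (Rch.single mv2)).trans h3).mono (by omega)

/-- **Upper bound.** -/
theorem upper : ∀ (m : ℕ), 1 ≤ m → m ≤ n → ∀ u : List (Perm ℤ), Good n u → u.length = m →
    u.prod = coxeterElement m → Rch (m.choose 2 + 1) u (st m) := by
  intro m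
  induction m with
  | zero => intro h; omega
  | succ m ih =>
    intro _ hmn u hg hlen hprod
    rcases Nat.eq_zero_or_pos m with rfl | hm
    · obtain ⟨t, rfl⟩ : ∃ t, u = [t] := List.length_eq_one_iff.mp (by simpa using hlen)
      have : t = simple 0 := by
        have h1 := hprod
        rw [cox_succ] at h1
        simpa [coxeterElement] using h1
      rw [this]
      exact Rch.refl _ _
    · obtain ⟨t, l, rfl⟩ : ∃ t l, u = t :: l := by
        cases u with
        | nil => simp at hlen
        | cons t l => exact ⟨t, l, rfl⟩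
      have hll : l.length = m := by simpa using hlen
      by_cases hcase : t ((m : ℤ) + 1) = (m : ℤ) + 1 ∨ ¬ Short t
      · have hmv : (t :: l).prod ((m : ℤ) + 1) ≠ (m : ℤ) + 1 := by
          rw [hprod, cox_apply _ _ (by omega) (by omega)]
          push_cast
          split_ifs <;> omega
        obtain ⟨r, m', hr, hm', hR⟩ := pass_word' ((m : ℤ) + 1) t l hmv hg hcase
        have hA := hR.asl hg.1
        have hP := hR.prod hg.1
        obtain ⟨h1, h2⟩ := last_letter (C := coxeterElement (m + 1)) (q := m) (s := simple m)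
          hA (by rw [hP, hprod]) hr
          (by rw [cox_apply _ _ (by omega) (by omega)]; push_cast; split_ifs <;> omega)
          (by omega) (simple_SL (by omega)) (simple_apply_self hm)
        have hrl : r.length = m := by
          have := hR.length
          rw [hlen] at this
          simpa using this
        have hrp : r.prod = coxeterElement m := by
          rw [h2, cox_succ, mul_assoc, (simple_SL (n := n) (i := m) (by omega)).mul_self, mul_one]
        have h3 := ih hm (by omega) r (hg.rch hR).left hrl hrp
        rw [st_succ, ← h1]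
        refine (hR.trans (h3.appendR [m'])).mono ?_
        rw [hll, Nat.choose_succ_succ' m 1, Nat.choose_one_right, one_add_one_eq_two]
        omega
      · push Not at hcase
        obtain ⟨htm, hsh⟩ := hcase
        have htS : SL n t := hg.1.head
        have ht : t = sh ((m : ℤ) + 1) := by
          apply htS.ext_moved (sh_SL (by omega) (by rw [abs_of_nonneg (by omega)]; exact_mod_cast hmn)) htm
          rw [(htS.short_iff htm).mp hsh, sh_apply, if_pos rfl]
        have htw := tw_of_cox (by omega) hmn hg hlen hprod
        have htwl : tw l = 2 * (m - 1 + 1) := by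
          rw [tw_cons, wt_short hsh] at htw; omega
        have hE := explicit (m := m + 1) (n := n) (by omega) hmn
        have e0 : m + 1 - 2 = m - 1 := by omega
        rw [e0] at hE
        have hcast : (((m + 1 : ℕ)) : ℤ) = (m : ℤ) + 1 := by push_cast; ring
        rw [hcast, ← ht] at hE
        have hEA : ASL n (t :: eA (m + 1) (m - 1)) :=
          ASL.cons htS (eA_ASL (by omega) hmn (by omega))
        have hEP := hE.prod hEA
        have hlp : l.prod = (eA (m + 1) (m - 1)).prod := by
          have h5 : t * l.prod = t * (eA (m + 1) (m - 1)).prod := by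
            rw [← List.prod_cons, hprod, ← List.prod_cons, ← hEP, st_prod]
          exact mul_left_cancel h5
        have h6 := typeA (m := m + 1) (n := n) (by omega) hmn (m - 1) (by omega) l hg.tail
          (by omega) htwl hlp
        refine ((h6.cons t).trans hE).mono ?_
        have e1 : m - 1 + 1 = m := by omega
        rw [e1, Nat.choose_succ_succ' m 1, Nat.choose_one_right, one_add_one_eq_two]
        omega

end Pool.Agent.Helper94.Hurwitz
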