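import Pool.Agent.Helper94.Hurwitz.Upper

set_option autoImplicit false

open Equiv

namespace Pool.Agent.Helper94.Hurwitz

variable {n : ℕ}

/-- extension by zero of a function on `[-n, n]`. -/
noncomputable def extz (n : ℕ) : (↥(Finset.Icc (-(n : ℤ)) n) → ℚ) →ₗ[ℚ] (ℤ → ℚ) where
  toFun v x := if h : x ∈ Finset.Icc (-(n : ℤ)) n then v ⟨x, h⟩ else 0
  map_add' v w := by
    funext x
    simp only [Pi.add_apply]
    split_ifs <;> simp
  map_smul' c v := by
    funext x
    simp only [Pi.smul_apply, RingHom.id_apply]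
    split_ifs <;> simp

/-- evaluation at `x` -/
def evq (x : ℤ) : (ℤ → ℚ) →ₗ[ℚ] ℚ := LinearMap.proj x

@[simp] theorem evq_apply (x : ℤ) (F : ℤ → ℚ) : evq x F = F x := rfl

theorem exists_common_kernel (L : List ((ℤ → ℚ) →ₗ[ℚ] ℚ)) (h : L.length < 2 * n + 1) :
    ∃ F : ℤ → ℚ, F ≠ 0 ∧ (∀ x : ℤ, (n : ℤ) < |x| → F x = 0) ∧ ∀ f ∈ L, f F = 0 := by
  set T : (↥(Finset.Icc (-(n : ℤ)) n) → ℚ) →ₗ[ℚ] (Fin L.length → ℚ) :=
    LinearMap.pi (fun i => (L.get i).comp (extz n)) with hT
  have hfin : Module.finrank ℚ (Fin L.length → ℚ) <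
      Module.finrank ℚ (↥(Finset.Icc (-(n : ℤ)) n) → ℚ) := by
    rw [Module.finrank_pi, Module.finrank_pi, Fintype.card_coe, Int.card_Icc, Fintype.card_fin]
    omega
  have hk := LinearMap.ker_ne_bot_of_finrank_lt (f := T) hfin
  obtain ⟨v, hv, hv0⟩ := (Submodule.ne_bot_iff _).mp hk
  refine ⟨extz n v, ?_, ?_, ?_⟩
  · intro h0
    apply hv0
    funext x
    have := congrFun h0 x.1
    simp only [extz, LinearMap.coe_mk, AddHom.coe_mk, Pi.zero_apply] at this
    rw [dif_pos x.2] at this
    simpa using this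
  · intro x hx
    simp only [extz, LinearMap.coe_mk, AddHom.coe_mk]
    rw [dif_neg]
    rw [Finset.mem_Icc]
    intro h1
    have := abs_le.mpr h1
    omega
  · intro f hf
    obtain ⟨i, rfl⟩ := List.get_of_mem hf
    have h1 : T v = 0 := hv
    have h2 := congrFun h1 i
    simpa [hT] using h2

/-- a function invariant under `c` is constant on `±1, …, ±n`. -/
theorem inv_const {n : ℕ} (F : ℤ → ℚ) (hF : ∀ x, F (coxeterElement n x) = F x)
    (hodd : ∀ x, coxeterElement n (-x) = - coxeterElement n x) :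
    ∀ x : ℤ, x ≠ 0 → |x| ≤ n → F x = F 1 := by
  have h1 : ∀ k : ℕ, k < n → F ((k : ℤ) + 1) = F 1 := by
    intro k
    induction k with
    | zero => intro _; simp
    | succ k ih =>
      intro hk
      have h2 := ih (by omega)
      have h3 := hF ((k : ℤ) + 1)
      rw [cox_apply _ _ (by omega) (by omega), if_pos (by omega)] at h3
      push_cast
      rw [h3, h2]
  have h2 : 1 ≤ n → F (-1) = F 1 := by
    intro hn
    have h3 := hF (n : ℤ)
    rw [cox_apply _ _ (by omega) (by omega), if_neg (by omega), if_pos rfl] at h3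
    rw [h3]
    have := h1 (n - 1) (by omega)
    rw [← this]
    congr 1
    omega
  have h3 : ∀ k : ℕ, k < n → F (-((k : ℤ) + 1)) = F 1 := by
    intro k
    induction k with
    | zero => intro hk; simpa using h2 (by omega)
    | succ k ih =>
      intro hk
      have h4 := ih (by omega)
      have h5 := hF (-((k : ℤ) + 1))
      rw [hodd, cox_apply _ _ (by omega) (by omega), if_pos (by omega)] at h5
      push_cast
      rw [h5, h4]
  intro x hx hxn
  rw [abs_le] at hxn
  rcases lt_or_gt_of_ne hx with h | h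
  · have := h3 (-x - 1).toNat (by omega)
    rw [← this]
    congr 1
    omega
  · have := h1 (x - 1).toNat (by omega)
    rw [← this]
    congr 1
    omega

theorem cox_odd (x : ℤ) : coxeterElement n (-x) = - coxeterElement n x := by
  have h : coxeterElement n ∈ hyperoctahedral n := by
    rw [← st_prod]
    exact Subgroup.list_prod_mem _ (fun t ht => (st_ASL (n := n) le_rfl t ht).mem_hyper)
  exact h.1 x

/-- transposition pairs of a word -/
theorem exists_pairs : ∀ (u : List (Perm ℤ)), ASL n u →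
    ∃ P : List (ℤ × ℤ), P.length = tw u ∧
      ∀ F : ℤ → ℚ, (∀ p ∈ P, F p.1 = F p.2) → ∀ x, F (u.prod x) = F x := by
  intro u
  induction u with
  | nil => intro _; exact ⟨[], rfl, fun F _ x => rfl⟩
  | cons t u ih =>
    intro hu
    obtain ⟨P, hP, hP'⟩ := ih hu.tail
    have ht := hu.head
    have key : ∃ Q : List (ℤ × ℤ), Q.length = wt t ∧
        ∀ F : ℤ → ℚ, (∀ p ∈ Q, F p.1 = F p.2) → ∀ x, F (t x) = F x := by
      rcases ht with ⟨a, ha, ha', rfl⟩ | ⟨a, b, ha, hb, hab, hab', ha', hb', rfl⟩
      · refine ⟨[(a, -a)], by rw [wt_short (short_sh ha)]; rfl, ?_⟩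
        intro F hF x
        have h1 : F a = F (-a) := hF (a, -a) (by simp)
        rw [sh_apply]
        split_ifs with h2 h3
        · rw [h2, h1]
        · rw [h3, h1]
        · rfl
      · have hl : ¬ Short (lg a b) := by
          have hS : SL n (lg a b) := Or.inr ⟨a, b, ha, hb, hab, hab', ha', hb', rfl⟩
          have e : lg a b a = b := by rw [lg_apply ha hb hab hab', if_pos rfl]
          rw [hS.short_iff (p := a) (by rw [e]; exact Ne.symm hab), e]
          intro h; apply hab'; omega
        refine ⟨[(a, b), (-a, -b)], by rw [wt_long hl]; rfl, ?_⟩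
        intro F hF x
        have h1 : F a = F b := hF (a, b) (by simp)
        have h2 : F (-a) = F (-b) := hF (-a, -b) (by simp)
        rw [lg_apply ha hb hab hab']
        split_ifs with h3 h4 h5 h6
        · rw [h3, h1]
        · rw [h4, h1]
        · rw [h5, h2]
        · rw [h6, h2]
        · rfl
    obtain ⟨Q, hQ, hQ'⟩ := key
    refine ⟨Q ++ P, by rw [List.length_append, hQ, hP, tw_cons], ?_⟩
    intro F hF x
    rw [List.prod_cons, Perm.mul_apply, hQ' F (fun p hp => hF p (by simp [hp])),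
      hP' F (fun p hp => hF p (by simp [hp]))]

/-- the weight bound -/
theorem tw_ge (hn : 1 ≤ n) (u : List (Perm ℤ)) (hu : ASL n u) (hp : u.prod = coxeterElement n) :
    2 * n - 1 ≤ tw u := by
  by_contra hlt
  push Not at hlt
  obtain ⟨P, hP, hP'⟩ := exists_pairs u hu
  obtain ⟨F, hF0, hFs, hFL⟩ := exists_common_kernel (n := n)
    (evq 0 :: evq 1 ::
      P.map (fun p => evq p.1 - evq p.2))
    (by simp only [List.length_cons, List.length_map, hP]; omega)
  have h0 : F 0 = 0 := by
    have := hFL (evq 0) (by simp)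
    simpa using this
  have h1 : F 1 = 0 := by
    have := hFL (evq 1) (by simp)
    simpa using this
  have h2 : ∀ p ∈ P, F p.1 = F p.2 := by
    intro p hp
    have := hFL (evq p.1 - evq p.2) (by
      right; right
      exact List.mem_map.mpr ⟨p, hp, rfl⟩)
    simp only [LinearMap.sub_apply, evq_apply] at this
    linarith
  have h3 := hP' F h2
  rw [hp] at h3
  have h4 := inv_const F h3 cox_odd
  apply hF0
  funext x
  by_cases hx : x = 0
  · rw [hx, h0]; rfl
  by_cases hx' : |x| ≤ n
  · rw [h4 x hx hx', h1]; rfl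
  · exact hFs x (by omega)

theorem length_ge (hn : 1 ≤ n) (u : List (Perm ℤ)) (hu : ASL n u)
    (hp : u.prod = coxeterElement n) : n ≤ u.length := by
  have h1 := tw_ge hn u hu hp
  have h2 := tw_le u
  omega

theorem good_of_cox (hn : 1 ≤ n) (u : List (Perm ℤ)) (hu : ASL n u)
    (hp : u.prod = coxeterElement n) (hlen : u.length = n) : Good n u := by
  refine ⟨hu, fun v hv he => ?_⟩
  have h1 := tw_ge hn v hv (by rw [he, hp])
  have h2 := tw_le u
  omega

/-- odd functions with support in `[-n, n]` -/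
def OF (n : ℕ) (F : ℤ → ℚ) : Prop := (∀ x, F (-x) = - F x) ∧ ∀ x : ℤ, (n : ℤ) < |x| → F x = 0

theorem OF.zero {F : ℤ → ℚ} (h : OF n F) : F 0 = 0 := by
  have := h.1 0
  rw [neg_zero] at this
  linarith

theorem OF.comb {F F' : ℤ → ℚ} (h : OF n F) (h' : OF n F') (a b : ℚ) :
    OF n (fun x => a * F x - b * F' x) := by
  refine ⟨fun x => ?_, fun x hx => ?_⟩
  · simp only [h.1, h'.1]; ring
  · simp only [h.2 x hx, h'.2 x hx]; ring

/-- `F` is fixed by all letters -/
def Fx (u : List (Perm ℤ)) (F : ℤ → ℚ) : Prop := ∀ t ∈ u, ∀ x, F (t x) = F x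

theorem Fx.prod {u : List (Perm ℤ)} {F : ℤ → ℚ} (h : Fx u F) : ∀ x, F (u.prod x) = F x := by
  induction u with
  | nil => intro x; rfl
  | cons t u ih =>
    intro x
    rw [List.prod_cons, Perm.mul_apply, h t (by simp), ih (fun s hs => h s (by simp [hs]))]

theorem Fx.comb {u : List (Perm ℤ)} {F F' : ℤ → ℚ} (h : Fx u F) (h' : Fx u F') (a b : ℚ) :
    Fx u (fun x => a * F x - b * F' x) := by
  intro t ht x
  simp only [h t ht x, h' t ht x]

/-- an odd function fixed by `c` vanishes -/
theorem eq_zero_of_inv (hn : 1 ≤ n) {F : ℤ → ℚ} (hF : OF n F)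
    (h : ∀ x, F (coxeterElement n x) = F x) : F = 0 := by
  have h1 := inv_const F h cox_odd
  have h2 : F 1 = 0 := by
    have h3 := h1 (-1) (by norm_num) (by rw [abs_neg, abs_one]; exact_mod_cast hn)
    rw [hF.1] at h3
    linarith
  funext x
  by_cases hx : x = 0
  · rw [hx, hF.zero]; rfl
  by_cases hx' : |x| ≤ n
  · rw [h1 x hx hx', h2]; rfl
  · exact hF.2 x (by omega)

/-- for odd functions, being fixed by a letter is one linear condition -/
theorem SL.fix_iff {t : Perm ℤ} (h : SL n t) {p : ℤ} (hp : t p ≠ p) {F : ℤ → ℚ}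
    (hF : ∀ x, F (-x) = - F x) : (∀ x, F (t x) = F x) ↔ F (t p) = F p := by
  constructor
  · intro h1; exact h1 p
  · intro h1 x
    by_cases e1 : x = p
    · rw [e1, h1]
    by_cases e2 : x = -p
    · rw [e2, h.odd, hF, hF, h1]
    by_cases e3 : x = t p
    · rw [e3, h.invol, h1]
    by_cases e4 : x = - t p
    · rw [e4, h.odd, h.invol, hF, hF, h1]
    · rw [h.fix_of hp e1 e2 e3 e4]

/-- dimension count -/
theorem exists_fixed {u : List (Perm ℤ)} (hu : ASL n u) (hlen : u.length < n) :
    ∃ F, OF n F ∧ F ≠ 0 ∧ Fx u F := by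
  classical
  have hch : ∀ t : Perm ℤ, ∃ p : ℤ, SL n t → t p ≠ p := by
    intro t
    by_cases h : SL n t
    · obtain ⟨p, hp⟩ := h.exists_moved
      exact ⟨p, fun _ => hp⟩
    · exact ⟨0, fun h' => absurd h' h⟩
  choose m hm using hch
  obtain ⟨F, hF0, hFs, hFL⟩ := exists_common_kernel (n := n)
    ((List.range (n + 1)).map (fun k : ℕ => evq (k : ℤ) + evq (-(k : ℤ))) ++
      u.map (fun t => evq (t (m t)) - evq (m t)))
    (by simp only [List.length_append, List.length_map, List.length_range]; omega)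
  have hodd' : ∀ k : ℕ, k ≤ n → F (-(k : ℤ)) = - F k := by
    intro k hk
    have := hFL (evq (k : ℤ) + evq (-(k : ℤ))) (by
      apply List.mem_append_left
      exact List.mem_map.mpr ⟨k, List.mem_range.mpr (by omega), rfl⟩)
    simp only [LinearMap.add_apply, evq_apply] at this
    linarith
  have hodd : ∀ x, F (-x) = - F x := by
    intro x
    by_cases hx : |x| ≤ n
    · rw [abs_le] at hx
      rcases le_total 0 x with h | h
      · have := hodd' x.toNat (by omega)
        rwa [Int.toNat_of_nonneg h] at this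
      · have := hodd' (-x).toNat (by omega)
        rw [Int.toNat_of_nonneg (by omega), neg_neg] at this
        linarith
    · rw [hFs x (by omega), hFs (-x) (by rw [abs_neg]; omega)]
      simp
  refine ⟨F, ⟨hodd, hFs⟩, hF0, ?_⟩
  intro t ht
  have hS := hu t ht
  rw [hS.fix_iff (hm t hS) hodd]
  have := hFL (evq (t (m t)) - evq (m t)) (by
    apply List.mem_append_right
    exact List.mem_map.mpr ⟨t, ht, rfl⟩)
  simp only [LinearMap.sub_apply, evq_apply] at this
  linarith

end Pool.Agent.Helper94.Hurwitz
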